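import Pool.Agent.Q151.SK.GFU

set_option autoImplicit false

namespace Pool.Agent.Q151.SK.BAS

open Pool.Agent.Q160.SK MvPolynomial Filter Topology

variable {A J C : Type} [DecidableEq A] [Fintype A] [DecidableEq J] [DecidableEq C] [Fintype C]

section

variable (R : Dat A J) (P : Finset (A × C))

/-- the variable, or zero -/
noncomputable def v (a : A) (c : C) : MvPolynomial P ℚ :=
  if h : (a, c) ∈ P then X ⟨(a, c), h⟩ else 0

noncomputable def De (j : J) : Derivation ℚ (MvPolynomial P ℚ) (MvPolynomial P ℚ) :=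
  mkDerivation ℚ (fun p => if p.1.1 = R.src j then v P (R.tgt j) p.1.2 else 0)

noncomputable def Dh (a : A) : Derivation ℚ (MvPolynomial P ℚ) (MvPolynomial P ℚ) :=
  mkDerivation ℚ (fun p => if p.1.1 = a then X p else 0)

noncomputable def O : Ops A J C (MvPolynomial P ℚ) where
  Z := fun a c => LinearMap.mulLeft ℚ (v P a c)
  e := fun j => (De R P j).toLinearMap
  h := fun a => (Dh P a).toLinearMap

theorem X_eq (p : P) : (X p : MvPolynomial P ℚ) = v P p.1.1 p.1.2 := by
  unfold v
  rw [dif_pos p.2]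

theorem De_v (hP : ∀ j c, (R.tgt j, c) ∈ P → (R.src j, c) ∈ P) (j : J) (a : A) (c : C) :
    De R P j (v P a c) = if a = R.src j then v P (R.tgt j) c else 0 := by
  by_cases h : (a, c) ∈ P
  · unfold v De
    rw [dif_pos h, mkDerivation_X]
    rfl
  · have h1 : v P a c = 0 := by
      unfold v
      rw [dif_neg h]
    rw [h1, map_zero]
    split_ifs with h2
    · subst h2
      unfold v
      rw [dif_neg fun h3 => h (hP j c h3)]
    · rfl

theorem Dh_v (a b : A) (c : C) : Dh P a (v P b c) = if b = a then v P b c else 0 := by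
  by_cases h : (b, c) ∈ P
  · unfold v Dh
    rw [dif_pos h, mkDerivation_X]
  · have h1 : v P b c = 0 := by
      unfold v
      rw [dif_neg h]
    rw [h1, map_zero, ite_self]

theorem comm_hh (a b : A) : ⁅Dh P a, Dh P b⁆ = 0 := by
  refine derivation_ext fun p => ?_
  rw [Derivation.commutator_apply, X_eq, Dh_v, Dh_v, Derivation.zero_apply]
  by_cases hab : a = b
  · subst hab
    rw [sub_self]
  · have e1 : Dh P a (if p.1.1 = b then v P p.1.1 p.1.2 else 0) = 0 := by
      split_ifs with h
      · rw [Dh_v, if_neg (fun h2 => hab (h2.symm.trans h))]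
      · rw [map_zero]
    have e2 : Dh P b (if p.1.1 = a then v P p.1.1 p.1.2 else 0) = 0 := by
      split_ifs with h
      · rw [Dh_v, if_neg (fun h2 => hab (h.symm.trans h2))]
      · rw [map_zero]
    rw [e1, e2, sub_zero]

theorem comm_he (hP : ∀ j c, (R.tgt j, c) ∈ P → (R.src j, c) ∈ P) (a : A) (j : J) :
    ⁅Dh P a, De R P j⁆ = (R.al j a : ℚ) • De R P j := by
  have hal : (R.al j a : ℚ) = (if a = R.tgt j then 1 else 0) - (if a = R.src j then 1 else 0) := by
    unfold Dat.al
    push_cast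
    rfl
  refine derivation_ext fun p => ?_
  rw [Derivation.commutator_apply, X_eq, Dh_v, De_v R P hP, Derivation.smul_apply, De_v R P hP, hal]
  by_cases h1 : p.1.1 = R.src j
  · rw [if_pos h1, Dh_v, h1]
    by_cases h2 : a = R.tgt j
    · subst h2
      have h3 := R.ne j
      simp [h3, h3.symm]
    · by_cases h3 : a = R.src j
      · subst h3
        have h4 := R.ne j
        simp [h4, h4.symm, De_v R P hP]
      · simp [h2, h3, Ne.symm h2, Ne.symm h3]
  · rw [if_neg h1]
    by_cases h4 : p.1.1 = a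
    · have h5 : ¬ a = R.src j := fun h => h1 (h4.trans h)
      simp [h4, De_v R P hP, h5]
    · simp [h4]

theorem comm_ee0 (hP : ∀ j c, (R.tgt j, c) ∈ P → (R.src j, c) ∈ P) (i j : J)
    (h1 : R.tgt i ≠ R.src j) (h2 : R.src i ≠ R.tgt j) : ⁅De R P i, De R P j⁆ = 0 := by
  refine derivation_ext fun p => ?_
  rw [Derivation.commutator_apply, X_eq, De_v R P hP, De_v R P hP, Derivation.zero_apply]
  have e1 : De R P i (if p.1.1 = R.src j then v P (R.tgt j) p.1.2 else 0) = 0 := by
    split_ifs
    · rw [De_v R P hP, if_neg (Ne.symm h2)]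
    · rw [map_zero]
  have e2 : De R P j (if p.1.1 = R.src i then v P (R.tgt i) p.1.2 else 0) = 0 := by
    split_ifs
    · rw [De_v R P hP, if_neg h1]
    · rw [map_zero]
  rw [e1, e2, sub_zero]

theorem De_De (hP : ∀ j c, (R.tgt j, c) ∈ P → (R.src j, c) ∈ P) (i : J) (a : A) (c : C) :
    De R P i (De R P i (v P a c)) = 0 := by
  rw [De_v R P hP]
  split_ifs
  · rw [De_v R P hP, if_neg (R.ne i).symm]
  · rw [map_zero]

theorem comm_ee1 (hP : ∀ j c, (R.tgt j, c) ∈ P → (R.src j, c) ∈ P) (i j : J) :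
    ⁅De R P i, ⁅De R P i, De R P j⁆⁆ = 0 := by
  refine derivation_ext fun p => ?_
  rw [Derivation.commutator_apply, Derivation.commutator_apply, Derivation.commutator_apply, X_eq,
    Derivation.zero_apply, map_sub]
  have e1 : De R P i (De R P i (De R P j (v P p.1.1 p.1.2))) = 0 := by
    rw [De_v R P hP j]
    split_ifs
    · rw [De_De R P hP]
    · rw [map_zero, map_zero]
  have e2 : De R P j (De R P i (De R P i (v P p.1.1 p.1.2))) = 0 := by
    rw [De_De R P hP, map_zero]
  have e3 : De R P i (De R P j (De R P i (v P p.1.1 p.1.2))) = 0 := by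
    rw [De_v R P hP i]
    split_ifs
    · rw [De_v R P hP j]
      split_ifs with h1
      · rw [De_v R P hP i, if_neg]
        intro h2
        exact R.nocyc i j h2.symm h1
      · rw [map_zero]
    · rw [map_zero, map_zero]
  rw [e1, e2, e3]
  simp

theorem car_eq (i j : J) (hij : i ≠ j) : R.car i j =
    -(if R.tgt i = R.src j then 1 else 0) - (if R.src i = R.tgt j then 1 else 0) := by
  unfold Dat.car Dat.al
  rw [if_neg (fun h => hij (R.tgt_inj i j h)), if_neg (fun h => hij (R.src_inj i j h) : ¬ R.src i = R.src j)]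
  ring

theorem rels (hP : ∀ j c, (R.tgt j, c) ∈ P → (R.src j, c) ∈ P) : Rels R (O R P) := by
  refine ⟨?_, ?_, ?_, ?_, ?_, ?_, ?_⟩
  · intro a c b d
    refine LinearMap.ext fun f => ?_
    show v P a c * (v P b d * f) = v P b d * (v P a c * f)
    ring
  · intro a b
    refine LinearMap.ext fun f => ?_
    have h := congrArg (fun D : Derivation ℚ (MvPolynomial P ℚ) (MvPolynomial P ℚ) => D f)
      (comm_hh P a b)
    simp only [Derivation.commutator_apply, Derivation.zero_apply] at h
    exact sub_eq_zero.mp h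
  · intro a b c
    refine LinearMap.ext fun f => ?_
    have h1 : (if a = b then (O R P).Z b c else 0) f = (if a = b then v P b c * f else 0) := by
      split_ifs <;> rfl
    rw [LinearMap.add_apply, h1]
    show Dh P a (v P b c * f) = v P b c * Dh P a f + _
    rw [Derivation.leibniz, Dh_v]
    by_cases h : a = b
    · subst h
      simp [mul_comm]
    · simp [h, Ne.symm h]
  · intro a j
    refine LinearMap.ext fun f => ?_
    have h := congrArg (fun D : Derivation ℚ (MvPolynomial P ℚ) (MvPolynomial P ℚ) => D f)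
      (comm_he R P hP a j)
    simp only [Derivation.commutator_apply, Derivation.smul_apply] at h
    show Dh P a (De R P j f) = De R P j (Dh P a f) + (R.al j a : ℚ) • De R P j f
    rw [← h]
    abel
  · intro j a c
    refine LinearMap.ext fun f => ?_
    have h1 : (if a = R.src j then (O R P).Z (R.tgt j) c else 0) f
        = (if a = R.src j then v P (R.tgt j) c * f else 0) := by
      split_ifs <;> rfl
    rw [LinearMap.add_apply, h1]
    show De R P j (v P a c * f) = v P a c * De R P j f + _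
    rw [Derivation.leibniz, De_v R P hP]
    by_cases h : a = R.src j
    · simp [h, mul_comm]
    · simp [h]
  · intro i j hij hc
    rw [car_eq R i j hij] at hc
    have h1 : R.tgt i ≠ R.src j := by
      intro h
      rw [if_pos h] at hc
      split_ifs at hc <;> omega
    have h2 : R.src i ≠ R.tgt j := by
      intro h
      rw [if_pos h] at hc
      split_ifs at hc <;> omega
    refine LinearMap.ext fun f => ?_
    have h := congrArg (fun D : Derivation ℚ (MvPolynomial P ℚ) (MvPolynomial P ℚ) => D f)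
      (comm_ee0 R P hP i j h1 h2)
    simp only [Derivation.commutator_apply, Derivation.zero_apply] at h
    exact sub_eq_zero.mp h
  · intro i j _ _
    refine LinearMap.ext fun f => ?_
    have h := congrArg (fun D : Derivation ℚ (MvPolynomial P ℚ) (MvPolynomial P ℚ) => D f)
      (comm_ee1 R P hP i j)
    simp only [Derivation.commutator_apply, Derivation.zero_apply, map_sub] at h
    show De R P i (De R P i (De R P j f)) - (2 : ℚ) • De R P i (De R P j (De R P i f))
      + De R P j (De R P i (De R P i f)) = 0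
    rw [← h, two_smul]
    abel

/-- weight of a monomial -/
def wt (m : P →₀ ℕ) : A → ℤ := fun a => ∑ p : P, if p.1.1 = a then (m p : ℤ) else 0

theorem Dh_monomial (a : A) (s : P →₀ ℕ) (r : ℚ) :
    Dh P a (monomial s r) = ((wt P s a : ℤ) : ℚ) • monomial s r := by
  unfold Dh
  rw [mkDerivation_monomial, Finsupp.sum_fintype _ _ (by intro i; simp)]
  have h1 : ∀ i : P, monomial (s - Finsupp.single i 1) ((s i : ℕ) : ℚ) •
      (if i.1.1 = a then (X i : MvPolynomial P ℚ) else 0)
      = (if i.1.1 = a then ((s i : ℕ) : ℚ) else 0) • monomial s 1 := by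
    intro i
    split_ifs with h
    · by_cases h2 : s i = 0
      · rw [h2]
        simp
      · rw [smul_eq_mul, X, monomial_mul, mul_one, smul_monomial, smul_eq_mul, mul_one]
        have h3 : Finsupp.single i 1 ≤ s := by
          rw [Finsupp.single_le_iff]
          omega
        rw [tsub_add_cancel_of_le h3]
    · rw [smul_zero, zero_smul]
  rw [Finset.sum_congr rfl fun i _ => h1 i, ← Finset.sum_smul, smul_smul]
  have h2 : (monomial s r : MvPolynomial P ℚ) = r • monomial s 1 := by
    rw [smul_monomial, smul_eq_mul, mul_one]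
  rw [h2, smul_smul]
  congr 1
  unfold wt
  push_cast
  ring

theorem coeff_Dh (a : A) (m : P →₀ ℕ) (f : MvPolynomial P ℚ) :
    coeff m (Dh P a f) = ((wt P m a : ℤ) : ℚ) * coeff m f := by
  induction f using MvPolynomial.induction_on' with
  | monomial s r =>
    rw [Dh_monomial, coeff_smul, smul_eq_mul, coeff_monomial]
    split_ifs with h
    · rw [h]
    · simp
  | add p q hp hq => rw [map_add, coeff_add, hp, hq, coeff_add, mul_add]

theorem W_eq (μ : A → ℤ) : (O R P).W μ = restrictSupport ℚ {m | wt P m = μ} := by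
  ext f
  rw [mem_restrictSupport_iff]
  constructor
  · intro hf m hm
    have hm' : coeff m f ≠ 0 := mem_support_iff.mp hm
    funext a
    have h1 : Dh P a f = (μ a : ℚ) • f := hf a
    have h2 := congrArg (coeff m) h1
    rw [coeff_Dh, coeff_smul, smul_eq_mul] at h2
    have h3 := mul_right_cancel₀ hm' h2
    exact_mod_cast h3
  · intro hf a
    show Dh P a f = (μ a : ℚ) • f
    ext m
    rw [coeff_Dh, coeff_smul, smul_eq_mul]
    by_cases h : coeff m f = 0
    · rw [h, mul_zero, mul_zero]
    · have h1 : wt P m = μ := hf (mem_support_iff.mpr h)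
      rw [h1]

theorem fin_wt (μ : A → ℤ) : ({m : P →₀ ℕ | wt P m = μ}).Finite := by
  refine (Set.finite_Iic (Finsupp.equivFunOnFinite.symm fun p : P => (μ p.1.1).toNat)).subset ?_
  intro m hm
  have hm' : wt P m = μ := hm
  intro p
  show m p ≤ (μ p.1.1).toNat
  rw [← hm']
  have h1 : (m p : ℤ) ≤ wt P m p.1.1 := by
    unfold wt
    have h2 := Finset.single_le_sum (f := fun q : P => if q.1.1 = p.1.1 then (m q : ℤ) else 0)
      (fun q _ => by split_ifs <;> simp) (Finset.mem_univ p)
    simpa using h2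
  omega

theorem dm_eq (μ : A → ℤ) : (O R P).dm ⊤ μ = Nat.card {m : P →₀ ℕ | wt P m = μ} := by
  unfold Ops.dm
  rw [top_inf_eq, W_eq]
  exact Module.finrank_eq_nat_card_basis (basisRestrictSupport ℚ {m : P →₀ ℕ | wt P m = μ})

theorem wt_nonneg (m : P →₀ ℕ) (a : A) : 0 ≤ wt P m a := by
  unfold wt
  exact Finset.sum_nonneg fun q _ => by split_ifs <;> simp

theorem w_wt (m : P →₀ ℕ) (t : A → ℝ) :
    w (wt P m) t = ∏ p : P, Real.exp (-(t p.1.1)) ^ (m p) := by
  have h1 : ∑ a, (wt P m a : ℝ) * t a = ∑ p : P, (m p : ℝ) * t p.1.1 := by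
    unfold wt
    push_cast
    simp only [Finset.sum_mul]
    rw [Finset.sum_comm]
    refine Finset.sum_congr rfl fun p _ => ?_
    have h2 : ∀ a, (if p.1.1 = a then (m p : ℝ) else 0) * t a
        = if p.1.1 = a then (m p : ℝ) * t a else 0 := by
      intro a
      split_ifs <;> simp
    rw [Finset.sum_congr rfl fun a _ => h2 a, Finset.sum_ite_eq, if_pos (Finset.mem_univ _)]
  unfold w
  rw [h1, ← Finset.sum_neg_distrib, Real.exp_sum]
  refine Finset.prod_congr rfl fun p _ => ?_
  rw [← Real.exp_nat_mul]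
  congr 1
  ring

end

/-- product of geometric series -/
theorem hasSum_geom (ι : Type) [Fintype ι] : ∀ r : ι → ℝ, (∀ i, 0 ≤ r i) → (∀ i, r i < 1) →
    HasSum (fun m : ι → ℕ => ∏ i, r i ^ m i) (∏ i, (1 - r i)⁻¹) := by
  refine Fintype.induction_empty_option (P := fun (ι : Type) _ => ∀ r : ι → ℝ, (∀ i, 0 ≤ r i) →
    (∀ i, r i < 1) → HasSum (fun m : ι → ℕ => ∏ i, r i ^ m i) (∏ i, (1 - r i)⁻¹)) ?_ ?_ ?_ ι
  · intro α β _ e h r h0 h1
    let _ : Fintype α := Fintype.ofEquiv β e.symm
    have h2 := h (fun i => r (e i)) (fun i => h0 _) (fun i => h1 _)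
    rw [Equiv.prod_comp e (fun i => (1 - r i)⁻¹)] at h2
    rw [← (Equiv.arrowCongr e (Equiv.refl ℕ)).hasSum_iff]
    refine h2.congr_fun ?_ |> fun h => h
    intro m
    rw [Function.comp]
    rw [← Equiv.prod_comp e]
    refine Finset.prod_congr rfl fun i _ => ?_
    simp [Equiv.arrowCongr]
  · intro r _ _
    simpa only [Fintype.prod_empty] using hasSum_unique (fun m : PEmpty → ℕ => ∏ i, r i ^ m i)
  · intro α _ h r h0 h1
    have h2 := h (fun i => r (some i)) (fun i => h0 _) (fun i => h1 _)
    have h3 := hasSum_geometric_of_lt_one (h0 none) (h1 none)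
    have h4 := h3.mul h2 (h3.summable.mul_of_nonneg h2.summable (fun n => pow_nonneg (h0 none) n)
      (fun m => Finset.prod_nonneg fun i _ => pow_nonneg (h0 _) _))
    rw [Fintype.prod_option, ← (Equiv.piOptionEquivProd (β := fun _ : Option α => ℕ)).symm.hasSum_iff]
    refine h4.congr_fun ?_ |> fun h => h
    intro m
    rw [Function.comp, Fintype.prod_option]
    rfl

section

variable (R : Dat A J) (P : Finset (A × C))

theorem hasSum_dm (t : A → ℝ) (ht : ∀ a, 0 < t a) :
    HasSum (fun μ : A → ℤ => ((O R P).dm ⊤ μ : ℝ) * w μ t)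
      (∏ p : P, (1 - Real.exp (-(t p.1.1)))⁻¹) := by
  have h1 := hasSum_geom P (fun p => Real.exp (-(t p.1.1))) (fun p => (Real.exp_pos _).le)
    (fun p => by rw [Real.exp_lt_one_iff]; linarith [ht p.1.1])
  have h2 : HasSum (fun m : P →₀ ℕ => w (wt P m) t) (∏ p : P, (1 - Real.exp (-(t p.1.1)))⁻¹) := by
    rw [← (Finsupp.equivFunOnFinite (α := P) (M := ℕ)).symm.hasSum_iff]
    refine h1.congr_fun ?_ |> fun h => h
    intro m
    rw [Function.comp, w_wt]
    rfl
  have h3 := (Equiv.sigmaFiberEquiv (wt P)).hasSum_iff.mpr h2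
  refine HasSum.sigma h3 fun μ => ?_
  have hf : Finite {m : P →₀ ℕ // wt P m = μ} := (fin_wt P μ).to_subtype
  let _ := Fintype.ofFinite {m : P →₀ ℕ // wt P m = μ}
  have h4 : ∀ c : {m : P →₀ ℕ // wt P m = μ},
      ((fun m : P →₀ ℕ => w (wt P m) t) ∘ (Equiv.sigmaFiberEquiv (wt P))) ⟨μ, c⟩ = w μ t := by
    intro c
    show w (wt P c.1) t = w μ t
    rw [c.2]
  have h5 := hasSum_fintype (fun c : {m : P →₀ ℕ // wt P m = μ} =>
    ((fun m : P →₀ ℕ => w (wt P m) t) ∘ (Equiv.sigmaFiberEquiv (wt P))) ⟨μ, c⟩)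
  rw [Finset.sum_congr rfl fun c _ => h4 c, Finset.sum_const, Finset.card_univ, nsmul_eq_mul,
    ← Nat.card_eq_fintype_card] at h5
  rw [dm_eq]
  exact h5

theorem span_top : (⊤ : Submodule ℚ (MvPolynomial P ℚ)) ≤ ⨆ μ, ⊤ ⊓ (O R P).W μ := by
  intro f _
  rw [f.as_sum]
  refine Submodule.sum_mem _ fun m _ => ?_
  refine Submodule.mem_iSup_of_mem (wt P m) ⟨trivial, ?_⟩
  rw [W_eq, SetLike.mem_coe, monomial_mem_restrictSupport]
  exact Or.inl rfl

theorem gen_top (μ : A → ℤ) (hμ : 0 < ∑ a, μ a) : (⊤ : Submodule ℚ (MvPolynomial P ℚ)) ⊓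
    (O R P).W μ ≤ ⨆ p : A × C, ((⊤ : Submodule ℚ (MvPolynomial P ℚ)) ⊓
      (O R P).W (μ - Pi.single p.1 1)).map ((O R P).Z p.1 p.2) := by
  rintro f ⟨-, hf⟩
  rw [SetLike.mem_coe, W_eq, mem_restrictSupport_iff] at hf
  rw [f.as_sum]
  refine Submodule.sum_mem _ fun m hm => ?_
  have hm' : wt P m = μ := hf hm
  obtain ⟨p, hp⟩ : ∃ p : P, m p ≠ 0 := by
    by_contra h
    push Not at h
    have h1 : ∀ a, μ a = 0 := by
      intro a
      rw [← hm']
      unfold wt
      refine Finset.sum_eq_zero fun q _ => ?_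
      rw [h q]
      simp
    simp [h1] at hμ
  refine Submodule.mem_iSup_of_mem p.1 ?_
  refine ⟨monomial (m - Finsupp.single p 1) (coeff m f), ⟨trivial, ?_⟩, ?_⟩
  · rw [SetLike.mem_coe, W_eq, monomial_mem_restrictSupport]
    left
    show wt P (m - Finsupp.single p 1) = μ - Pi.single p.1.1 1
    rw [← hm']
    funext a
    rw [Pi.sub_apply]
    unfold wt
    have h1 : ∀ q : P, (if q.1.1 = a then (((m - Finsupp.single p 1 : P →₀ ℕ) q : ℕ) : ℤ) else 0)
        = (if q.1.1 = a then (m q : ℤ) else 0) - (if q = p then (if p.1.1 = a then 1 else 0) else 0) := by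
      intro q
      rw [Finsupp.tsub_apply, Finsupp.single_apply]
      by_cases h2 : q = p
      · subst h2
        rw [if_pos rfl, if_pos rfl]
        by_cases h3 : q.1.1 = a
        · rw [if_pos h3, if_pos h3, if_pos h3]
          omega
        · rw [if_neg h3, if_neg h3, if_neg h3, sub_zero]
      · rw [if_neg (Ne.symm h2), if_neg h2]
        simp
    rw [Finset.sum_congr rfl fun q _ => h1 q, Finset.sum_sub_distrib, Finset.sum_ite_eq',
      if_pos (Finset.mem_univ _)]
    congr 1
    by_cases h : p.1.1 = a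
    · rw [if_pos h, ← h, Pi.single_eq_same]
    · rw [if_neg h, Pi.single_eq_of_ne (Ne.symm h)]
  · show v P p.1.1 p.1.2 * monomial (m - Finsupp.single p 1) (coeff m f) = monomial m (coeff m f)
    have h3 : Finsupp.single p 1 ≤ m := by
      rw [Finsupp.single_le_iff]
      omega
    rw [← X_eq, X, monomial_mul, one_mul, add_comm, tsub_add_cancel_of_le h3]

end

theorem t_BAS : S_BAS := by
  intro A J C _ _ _ _ _ R P hP
  refine ⟨MvPolynomial P ℚ, inferInstance, inferInstance, O R P, ⊤, ?_, ?_⟩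
  · refine ⟨rels R P hP, fun _ _ _ _ => trivial, fun _ _ _ => trivial, span_top R P,
      ?_, ?_, ?_, ?_⟩
    · intro μ
      rw [top_inf_eq, W_eq]
      have hf : Finite {m : P →₀ ℕ | wt P m = μ} := (fin_wt P μ).to_subtype
      exact Module.Finite.of_basis (basisRestrictSupport ℚ {m : P →₀ ℕ | wt P m = μ})
    · refine ⟨0, fun μ hμ a => ?_⟩
      obtain ⟨f, ⟨-, hf⟩, hf0⟩ := Submodule.exists_mem_ne_zero_of_ne_bot hμ
      rw [SetLike.mem_coe, W_eq, mem_restrictSupport_iff] at hf
      obtain ⟨m, hm⟩ := MvPolynomial.ne_zero_iff.mp hf0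
      have h1 : wt P m = μ := hf (mem_support_iff.mpr hm)
      rw [← h1, neg_zero]
      exact wt_nonneg P m a
    · exact ⟨0, fun μ hμ => gen_top R P μ hμ⟩
    · intro t ht
      exact (hasSum_dm R P t ht.1).summable
  · intro t ht
    have h1 : ∀ p ∈ P, Tendsto (fun ε : ℝ => ε * (1 - Real.exp (-(ε * t p.1)))⁻¹) (𝓝[>] 0)
        (𝓝 (t p.1)⁻¹) := by
      intro p _
      have h2 := tend_quot 0 (t p.1) (ht.1 p.1).ne
      simp only [mul_zero, neg_zero, Real.exp_zero, sub_zero, one_div] at h2
      exact h2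
    have h2 := tendsto_finsetProd P h1
    refine h2.congr' ?_
    filter_upwards [self_mem_nhdsWithin] with ε hε
    have hε' : (0 : ℝ) < ε := hε
    have h3 := (hasSum_dm R P (ε • t) (fun a => by
      rw [Pi.smul_apply, smul_eq_mul]
      exact mul_pos hε' (ht.1 a))).tsum_eq
    show _ = ε ^ P.card * (∑' μ : A → ℤ, ((O R P).dm ⊤ μ : ℝ) * w μ (ε • t))
    rw [h3, Finset.prod_mul_distrib, Finset.prod_const,
      Finset.prod_coe_sort P (fun p => (1 - Real.exp (-((ε • t) p.1)))⁻¹)]
    rfl

end Pool.Agent.Q151.SK.BAS
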