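import Pool.Agent.Q151.SK.LIM

set_option autoImplicit false

namespace Pool.Agent.Q151.SK

open Filter Topology Pool.Agent.Q160.SK

section

variable {A J : Type} [DecidableEq A] [Fintype A] [DecidableEq J]

noncomputable def w (μ : A → ℤ) (t : A → ℝ) : ℝ := Real.exp (-(∑ x, (μ x : ℝ) * t x))

theorem w_pos (μ : A → ℤ) (t : A → ℝ) : 0 < w μ t := Real.exp_pos _

theorem w_add (μ ν : A → ℤ) (t : A → ℝ) : w (μ + ν) t = w μ t * w ν t := by
  unfold w
  rw [← Real.exp_add, ← neg_add, ← Finset.sum_add_distrib]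
  congr 2
  refine Finset.sum_congr rfl fun x _ => ?_
  simp only [Pi.add_apply, Int.cast_add]
  ring

theorem w_al (R : Dat A J) (i : J) (t : A → ℝ) :
    w (R.al i) t = Real.exp (-(t (R.tgt i) - t (R.src i))) := by
  unfold w Dat.al
  congr 2
  have : ∀ x, (((if x = R.tgt i then 1 else 0 : ℤ) - (if x = R.src i then 1 else 0 : ℤ) : ℤ) : ℝ)
      * t x = (if x = R.tgt i then t x else 0) - (if x = R.src i then t x else 0) := by
    intro x
    split_ifs <;> simp
  rw [Finset.sum_congr rfl fun x _ => this x, Finset.sum_sub_distrib]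
  simp

theorem w_smul_al (R : Dat A J) (i : J) (t : A → ℝ) (q : ℕ) :
    w ((q : ℤ) • R.al i) t = Real.exp (-(t (R.tgt i) - t (R.src i))) ^ q := by
  induction q with
  | zero => simp [w]
  | succ q ih =>
    rw [Nat.cast_succ, add_smul, one_smul, w_add, ih, w_al, pow_succ]

theorem sw_sw (R : Dat A J) (i : J) (a : A) : R.sw i (R.sw i a) = a := by
  unfold Dat.sw
  exact Equiv.swap_apply_self _ _ _

theorem w_sw (R : Dat A J) (i : J) (μ : A → ℤ) (t : A → ℝ) :
    w μ (fun a => t (R.sw i a)) = w (fun a => μ (R.sw i a)) t := by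
  unfold w
  congr 2
  rw [← Equiv.sum_comp (R.sw i) (fun x => (μ x : ℝ) * t (R.sw i x))]
  refine Finset.sum_congr rfl fun x _ => ?_
  rw [sw_sw]

/-- permutation of the two rows as an equivalence on weights -/
def swE (R : Dat A J) (i : J) : (A → ℤ) ≃ (A → ℤ) where
  toFun := fun μ a => μ (R.sw i a)
  invFun := fun μ a => μ (R.sw i a)
  left_inv := fun μ => by
    funext a
    simp only [sw_sw]
  right_inv := fun μ => by
    funext a
    simp only [sw_sw]

theorem al_sw (R : Dat A J) (i : J) (a : A) : R.al i (R.sw i a) = - R.al i a := by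
  unfold Dat.al Dat.sw
  have hne := R.ne i
  by_cases h1 : a = R.src i
  · subst h1
    rw [Equiv.swap_apply_left]
    simp [hne, hne.symm]
  · by_cases h2 : a = R.tgt i
    · subst h2
      rw [Equiv.swap_apply_right]
      simp [hne, hne.symm]
    · rw [Equiv.swap_apply_of_ne_of_ne h1 h2]
      simp [h1, h2]

/-- the shear `(μ, q) ↦ (μ - q al, q)` -/
def shear (R : Dat A J) (i : J) : ((A → ℤ) × ℕ) ≃ ((A → ℤ) × ℕ) where
  toFun := fun p => (p.1 - (p.2 : ℤ) • R.al i, p.2)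
  invFun := fun p => (p.1 + (p.2 : ℤ) • R.al i, p.2)
  left_inv := fun p => by simp
  right_inv := fun p => by simp

theorem summ_pos (R : Dat A J) (i : J) (a b : (A → ℤ) → ℕ)
    (h3 : ∀ μ, ∃ Q : ℕ, a μ ≤ ∑ q ∈ Finset.range Q, b (μ - (q : ℤ) • R.al i))
    (t : A → ℝ) (hlt : t (R.src i) < t (R.tgt i))
    (h4 : Summable (fun μ : A → ℤ => (b μ : ℝ) * w μ t)) :
    Summable (fun μ : A → ℤ => (a μ : ℝ) * w μ t) := by
  set r : ℝ := Real.exp (-(t (R.tgt i) - t (R.src i))) with hr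
  have hr0 : 0 ≤ r := (Real.exp_pos _).le
  have hr1 : r < 1 := by
    rw [hr, Real.exp_lt_one_iff]
    linarith
  have hg := summable_geometric_of_lt_one hr0 hr1
  have hprod : Summable (fun p : (A → ℤ) × ℕ => (b p.1 : ℝ) * w p.1 t * r ^ p.2) :=
    h4.mul_of_nonneg hg (fun μ => mul_nonneg (Nat.cast_nonneg _) (w_pos _ _).le)
      (fun q => pow_nonneg hr0 q)
  have hsh : Summable (fun p : (A → ℤ) × ℕ => (b (p.1 - (p.2 : ℤ) • R.al i) : ℝ) * w p.1 t) := by
    have h5 := (shear R i).summable_iff.mpr hprod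
    refine h5.congr fun p => ?_
    simp only [Function.comp, shear, Equiv.coe_fn_mk]
    rw [mul_assoc, hr, ← w_smul_al R i t p.2, ← w_add, sub_add_cancel]
  refine Summable.of_nonneg_of_le (fun μ => mul_nonneg (Nat.cast_nonneg _) (w_pos _ _).le) ?_
    hsh.prod
  intro μ
  obtain ⟨Q, hQ⟩ := h3 μ
  have h6 : Summable (fun q : ℕ => (b (μ - (q : ℤ) • R.al i) : ℝ) * w μ t) :=
    hsh.prod_factor μ
  calc (a μ : ℝ) * w μ t ≤ ((∑ q ∈ Finset.range Q, b (μ - (q : ℤ) • R.al i) : ℕ) : ℝ) * w μ t :=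
        mul_le_mul_of_nonneg_right (Nat.cast_le.mpr hQ) (w_pos _ _).le
    _ = ∑ q ∈ Finset.range Q, (b (μ - (q : ℤ) • R.al i) : ℝ) * w μ t := by
        rw [Nat.cast_sum, Finset.sum_mul]
    _ ≤ _ := h6.sum_le_tsum _ (fun q _ => mul_nonneg (Nat.cast_nonneg _) (w_pos _ _).le)

theorem summ_all (R : Dat A J) (i : J) (a b : (A → ℤ) → ℕ)
    (h2 : ∀ μ, a (fun x => μ (R.sw i x)) = a μ)
    (h3 : ∀ μ, ∃ Q : ℕ, a μ ≤ ∑ q ∈ Finset.range Q, b (μ - (q : ℤ) • R.al i))
    (h4 : ∀ t ∈ R.U, Summable (fun μ : A → ℤ => (b μ : ℝ) * w μ t)) :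
    ∀ t ∈ R.U, Summable (fun μ : A → ℤ => (a μ : ℝ) * w μ t) := by
  intro t ht
  rcases lt_or_gt_of_ne (U_ne R i ht) with hlt | hgt
  · exact summ_pos R i a b h3 t hlt (h4 t ht)
  · have ht' := U_sw R i ht
    have h5 := summ_pos R i a b h3 (fun x => t (R.sw i x)) (by
      have e1 : R.sw i (R.src i) = R.tgt i := by unfold Dat.sw; exact Equiv.swap_apply_left _ _
      have e2 : R.sw i (R.tgt i) = R.src i := by unfold Dat.sw; exact Equiv.swap_apply_right _ _
      show t (R.sw i (R.src i)) < t (R.sw i (R.tgt i))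
      rw [e1, e2]
      exact hgt) (h4 _ ht')
    have h6 := (swE R i).summable_iff.mpr h5
    refine h6.congr fun μ => ?_
    simp only [Function.comp, swE, Equiv.coe_fn_mk]
    rw [h2, w_sw]
    simp only [sw_sw]

theorem t_GFU : S_GFU := by
  intro A J _ _ _ R i a b h1 h2 h3 h4
  have hsum := summ_all R i a b h2 h3 h4
  refine ⟨hsum, fun t ht => ?_⟩
  have ha := hsum t ht
  have hb := h4 t ht
  have hb' := h4 _ (U_sw R i ht)
  change (Real.exp (-t (R.src i)) - Real.exp (-t (R.tgt i))) * (∑' μ : A → ℤ, (a μ : ℝ) * w μ t)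
    = Real.exp (-t (R.src i)) * (∑' μ : A → ℤ, (b μ : ℝ) * w μ t)
      - Real.exp (-t (R.tgt i)) * (∑' μ : A → ℤ, (b μ : ℝ) * w μ (fun x => t (R.sw i x)))
  change Summable (fun μ : A → ℤ => (a μ : ℝ) * w μ t) at ha
  change Summable (fun μ : A → ℤ => (b μ : ℝ) * w μ t) at hb
  change Summable (fun μ : A → ℤ => (b μ : ℝ) * w μ (fun x => t (R.sw i x))) at hb'
  have hexp : Real.exp (-t (R.src i)) * w (R.al i) t = Real.exp (-t (R.tgt i)) := by
    rw [w_al, ← Real.exp_add]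
    congr 1
    ring
  -- shift of `a`
  have A1 : HasSum (fun μ : A → ℤ => (a (μ - R.al i) : ℝ) * w μ t)
      ((∑' μ : A → ℤ, (a μ : ℝ) * w μ t) * w (R.al i) t) := by
    have h5 := (ha.hasSum.mul_right (w (R.al i) t))
    have h6 := (Equiv.subRight (R.al i)).hasSum_iff.mpr h5
    refine h6.congr_fun ?_ |> fun h => h
    intro μ
    simp only [Function.comp, Equiv.subRight_apply]
    rw [mul_assoc, ← w_add, sub_add_cancel]
  have B1 : HasSum (fun μ : A → ℤ => (b ((fun x => μ (R.sw i x)) + R.al i) : ℝ) * w μ t)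
      ((∑' μ : A → ℤ, (b μ : ℝ) * w μ (fun x => t (R.sw i x))) * w (R.al i) t) := by
    have h5 := (hb'.hasSum.mul_right (w (R.al i) t))
    have h6 := ((swE R i).trans (Equiv.addRight (R.al i))).hasSum_iff.mpr h5
    refine h6.congr_fun ?_ |> fun h => h
    intro μ
    simp only [Function.comp, Equiv.trans_apply, Equiv.coe_addRight, swE, Equiv.coe_fn_mk]
    rw [mul_assoc, w_sw, ← w_add]
    congr 2
    funext x
    simp only [Pi.add_apply, sw_sw, al_sw]
    ring
  have L := ha.hasSum.sub A1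
  have Rr := hb.hasSum.sub B1
  have hfun : (fun μ : A → ℤ => (a μ : ℝ) * w μ t - (a (μ - R.al i) : ℝ) * w μ t)
      = fun μ => (b μ : ℝ) * w μ t - (b ((fun x => μ (R.sw i x)) + R.al i) : ℝ) * w μ t := by
    funext μ
    have := h1 μ
    have h7 : ((a μ : ℝ) - a (μ - R.al i)) = (b μ : ℝ) - b ((fun x => μ (R.sw i x)) + R.al i) := by
      exact_mod_cast this
    rw [← sub_mul, ← sub_mul, h7]
  rw [hfun] at L
  have huniq := L.unique Rr
  have h8 := congrArg (fun z => Real.exp (-t (R.src i)) * z) huniq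
  simp only at h8
  calc _ = Real.exp (-t (R.src i)) * ((∑' μ : A → ℤ, (a μ : ℝ) * w μ t) -
        (∑' μ : A → ℤ, (a μ : ℝ) * w μ t) * w (R.al i) t) := by
        rw [← hexp]; ring
    _ = _ := h8
    _ = _ := by rw [← hexp]; ring

end

end Pool.Agent.Q151.SK
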