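import Pool.Agent.Q151.SK.SPA
import Pool.Agent.Q151.SK.GFU

set_option autoImplicit false

namespace Pool.Agent.Q151.SK.DIA

open Pool.Agent.Q160.SK Filter Topology

section ring

variable {X : Type} [AddCommGroup X] [Module ℚ X]

/-- commutator -/
def br (a b : Module.End ℚ X) : Module.End ℚ X := a * b - b * a

theorem serre_lie (a g : Module.End ℚ X) :
    a * a * g - (2 : ℚ) • (a * g * a) + g * a * a = br a (br a g) := by
  unfold br
  simp only [mul_sub, sub_mul, ← mul_assoc, two_smul]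
  abel

theorem br_add (a b c : Module.End ℚ X) : br a (b + c) = br a b + br a c := by
  unfold br
  rw [mul_add, add_mul]
  abel

theorem add_br (a b c : Module.End ℚ X) : br (a + b) c = br a c + br b c := by
  unfold br
  rw [mul_add, add_mul]
  abel

theorem br_jac (a b c : Module.End ℚ X) : br a (br b c) = br (br a b) c + br b (br a c) := by
  unfold br
  simp only [mul_sub, sub_mul, ← mul_assoc]
  abel

theorem br_zero (a : Module.End ℚ X) : br a 0 = 0 := by
  unfold br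
  rw [mul_zero, zero_mul, sub_zero]

theorem zero_br (a : Module.End ℚ X) : br 0 a = 0 := by
  unfold br
  rw [mul_zero, zero_mul, sub_zero]

theorem serre_sum (a₁ a₂ g₁ g₂ : Module.End ℚ X) (h12 : a₁ * a₂ = a₂ * a₁)
    (h1 : a₁ * g₂ = g₂ * a₁) (h2 : a₂ * g₁ = g₁ * a₂)
    (s1 : a₁ * a₁ * g₁ - (2 : ℚ) • (a₁ * g₁ * a₁) + g₁ * a₁ * a₁ = 0)
    (s2 : a₂ * a₂ * g₂ - (2 : ℚ) • (a₂ * g₂ * a₂) + g₂ * a₂ * a₂ = 0) :
    (a₁ + a₂) * (a₁ + a₂) * (g₁ + g₂) - (2 : ℚ) • ((a₁ + a₂) * (g₁ + g₂) * (a₁ + a₂))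
      + (g₁ + g₂) * (a₁ + a₂) * (a₁ + a₂) = 0 := by
  rw [serre_lie] at s1 s2 ⊢
  have e1 : br a₁ g₂ = 0 := by unfold br; rw [h1, sub_self]
  have e2 : br a₂ g₁ = 0 := by unfold br; rw [h2, sub_self]
  have e3 : br a₁ a₂ = 0 := by unfold br; rw [h12, sub_self]
  have e4 : br a₂ a₁ = 0 := by unfold br; rw [h12, sub_self]
  have e5 : br a₂ (br a₁ g₁) = 0 := by rw [br_jac, e4, e2, zero_br, br_zero, add_zero]
  have e6 : br a₁ (br a₂ g₂) = 0 := by rw [br_jac, e3, e1, zero_br, br_zero, add_zero]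
  simp only [br_add, add_br, e1, e2, s1, s2, e5, e6, br_zero, add_zero]

end ring

variable {A J C X : Type} [DecidableEq A] [Fintype A] [DecidableEq J] [DecidableEq C] [Fintype C]
  [AddCommGroup X] [Module ℚ X]

/-- sum of the two halves of a weight -/
def sg (ν : Bool × A → ℤ) : A → ℤ := fun a => ν (false, a) + ν (true, a)

/-- restriction to the diagonal -/
def dO (O : Ops (Bool × A) (Bool × J) C X) : Ops A J (Bool × C) X where
  Z := fun a c => O.Z (c.1, a) c.2
  e := fun j => O.e (false, j) + O.e (true, j)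
  h := fun a => O.h (false, a) + O.h (true, a)

theorem al_dbl (R : Dat A J) (s s' : Bool) (j : J) (a : A) :
    R.dbl.al (s', j) (s, a) = if s = s' then R.al j a else 0 := by
  unfold Dat.al
  show (if (s, a) = (s', R.tgt j) then (1 : ℤ) else 0) - (if (s, a) = (s', R.src j) then 1 else 0) = _
  by_cases h : s = s'
  · subst h
    simp
  · simp [h]

theorem car_dbl (R : Dat A J) (s s' : Bool) (i j : J) :
    R.dbl.car (s, i) (s', j) = if s = s' then R.car i j else 0 := by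
  unfold Dat.car
  show R.dbl.al (s', j) (s, R.tgt i) - R.dbl.al (s', j) (s, R.src i) = _
  rw [al_dbl, al_dbl]
  split_ifs <;> simp

theorem rels_dia (R : Dat A J) (O : Ops (Bool × A) (Bool × J) C X) (hR : Rels R.dbl O) :
    Rels R (dO O) := by
  have comm : ∀ (s s' : Bool) (i j : J), s ≠ s' → O.e (s, i) * O.e (s', j) = O.e (s', j) * O.e (s, i) := by
    intro s s' i j h
    refine hR.serre0 _ _ (fun h2 => h (congrArg Prod.fst h2)) ?_
    rw [car_dbl, if_neg h]
  refine ⟨fun a c b d => hR.ZZ _ _ _ _, ?_, ?_, ?_, ?_, ?_, ?_⟩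
  · intro a b
    show (O.h (false, a) + O.h (true, a)) * (O.h (false, b) + O.h (true, b)) =
      (O.h (false, b) + O.h (true, b)) * (O.h (false, a) + O.h (true, a))
    simp only [add_mul, mul_add]
    rw [hR.hh (false, a) (false, b), hR.hh (false, a) (true, b), hR.hh (true, a) (false, b),
      hR.hh (true, a) (true, b)]
    abel
  · rintro a b ⟨s, c⟩
    show (O.h (false, a) + O.h (true, a)) * O.Z (s, b) c = O.Z (s, b) c *
      (O.h (false, a) + O.h (true, a)) + (if a = b then O.Z (s, b) c else 0)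
    rw [add_mul, mul_add, hR.hZ, hR.hZ]
    by_cases h : a = b
    · subst h
      cases s <;> simp <;> abel
    · simp [h]
  · intro a j
    show (O.h (false, a) + O.h (true, a)) * (O.e (false, j) + O.e (true, j)) =
      (O.e (false, j) + O.e (true, j)) * (O.h (false, a) + O.h (true, a))
        + (R.al j a : ℚ) • (O.e (false, j) + O.e (true, j))
    simp only [add_mul, mul_add]
    rw [hR.he, hR.he, hR.he, hR.he, al_dbl, al_dbl, al_dbl, al_dbl]
    simp
    abel
  · rintro j a ⟨s, c⟩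
    show (O.e (false, j) + O.e (true, j)) * O.Z (s, a) c = O.Z (s, a) c *
      (O.e (false, j) + O.e (true, j)) + (if a = R.src j then O.Z (s, R.tgt j) c else 0)
    rw [add_mul, mul_add, hR.eZ, hR.eZ]
    have e1 : ∀ s' : Bool, R.dbl.src (s', j) = (s', R.src j) := fun _ => rfl
    have e2 : ∀ s' : Bool, R.dbl.tgt (s', j) = (s', R.tgt j) := fun _ => rfl
    rw [e1, e1, e2, e2]
    by_cases h : a = R.src j
    · subst h
      cases s <;> simp <;> abel
    · simp [h]
  · intro i j hij hc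
    show (O.e (false, i) + O.e (true, i)) * (O.e (false, j) + O.e (true, j)) =
      (O.e (false, j) + O.e (true, j)) * (O.e (false, i) + O.e (true, i))
    simp only [add_mul, mul_add]
    have same : ∀ s : Bool, O.e (s, i) * O.e (s, j) = O.e (s, j) * O.e (s, i) := by
      intro s
      refine hR.serre0 _ _ (fun h2 => hij (congrArg Prod.snd h2)) ?_
      rw [car_dbl, if_pos rfl, hc]
    rw [same false, same true, comm false true i j (by decide), comm true false i j (by decide)]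
    abel
  · intro i j hij hc
    have same : ∀ s : Bool, O.e (s, i) * O.e (s, i) * O.e (s, j)
        - (2 : ℚ) • (O.e (s, i) * O.e (s, j) * O.e (s, i)) + O.e (s, j) * O.e (s, i) * O.e (s, i)
        = 0 := by
      intro s
      refine hR.serre1 _ _ (fun h2 => hij (congrArg Prod.snd h2)) ?_
      rw [car_dbl, if_pos rfl, hc]
    exact serre_sum _ _ _ _ (comm false true i i (by decide)) (comm false true i j (by decide))
      (comm true false i j (by decide)) (same false) (same true)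

theorem W_le (O : Ops (Bool × A) (Bool × J) C X) (ν : Bool × A → ℤ) : O.W ν ≤ (dO O).W (sg ν) := by
  intro x hx a
  show (O.h (false, a) + O.h (true, a)) x = (((ν (false, a) + ν (true, a) : ℤ)) : ℚ) • x
  rw [LinearMap.add_apply, hx, hx, ← add_smul, Int.cast_add]

theorem W_dia (O : Ops (Bool × A) (Bool × J) C X) (M : Submodule ℚ X)
    (hspan : M ≤ ⨆ ν, M ⊓ O.W ν) (μ : A → ℤ) :
    M ⊓ (dO O).W μ = ⨆ ν : {ν : Bool × A → ℤ // sg ν = μ}, M ⊓ O.W ν.1 := by
  apply le_antisymm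
  · rintro x ⟨hxM, hx⟩
    refine mem_of_iSup (dO O) (fun κ => ⨆ ν : {ν : Bool × A → ℤ // sg ν = κ}, M ⊓ O.W ν.1)
      (fun κ => iSup_le fun ν => ?_) μ x hx ?_
    · rintro y ⟨-, hy⟩
      have := W_le O ν.1 hy
      rwa [ν.2] at this
    · refine (iSup_le fun ν => ?_ : (⨆ ν, M ⊓ O.W ν) ≤ _) (hspan hxM)
      exact le_trans (le_iSup (fun ν' : {ν' : Bool × A → ℤ // sg ν' = sg ν} => M ⊓ O.W ν'.1)
        ⟨ν, rfl⟩) (le_iSup (fun κ => ⨆ ν : {ν : Bool × A → ℤ // sg ν = κ}, M ⊓ O.W ν.1) (sg ν))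
  · refine iSup_le fun ν => ?_
    rintro y ⟨hy1, hy⟩
    refine ⟨hy1, ?_⟩
    have := W_le O ν.1 hy
    rwa [ν.2] at this

theorem fin_set (c : ℤ) (μ : A → ℤ) :
    ({ν : {ν : Bool × A → ℤ // sg ν = μ} | ∀ p, -c ≤ ν.1 p}).Finite := by
  have h1 : ({ν : Bool × A → ℤ | sg ν = μ ∧ ∀ p, -c ≤ ν p}).Finite := by
    refine (Set.finite_Icc (fun _ : Bool × A => -c) (fun p => μ p.2 + c)).subset ?_
    rintro ν ⟨hν, hc⟩
    refine ⟨hc, ?_⟩
    rintro ⟨s, a⟩
    have h2 := congrFun hν a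
    have h3 := hc (!s, a)
    simp only [sg] at h2
    cases s
    · simp only [Bool.not_false] at h3
      show ν (false, a) ≤ μ a + c
      linarith
    · simp only [Bool.not_true] at h3
      show ν (true, a) ≤ μ a + c
      linarith
  refine Set.Finite.of_finite_image (f := Subtype.val) (h1.subset ?_) Subtype.val_injective.injOn
  rintro _ ⟨ν, hν, rfl⟩
  exact ⟨ν.2, hν⟩

/-- dimension of an independent supremum -/
theorem finrank_iSup {ι : Type} [Fintype ι] [DecidableEq ι] (p : ι → Submodule ℚ X)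
    (hind : iSupIndep p) (hfin : ∀ i, Module.Finite ℚ ↥(p i)) :
    Module.Finite ℚ ↥(⨆ i, p i) ∧ Module.finrank ℚ ↥(⨆ i, p i) = ∑ i, Module.finrank ℚ ↥(p i) := by
  have hinj := hind.dfinsupp_lsum_injective
  let e1 := LinearEquiv.ofInjective _ hinj
  have e2 : (Π₀ i, ↥(p i)) ≃ₗ[ℚ] ((i : ι) → ↥(p i)) := DFinsupp.linearEquivFunOnFintype
  have e3 := e2.symm.trans e1
  rw [Submodule.iSup_eq_range_dfinsupp_lsum]
  refine ⟨Module.Finite.equiv e3, ?_⟩
  rw [← e3.finrank_eq, Module.finrank_pi_fintype]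

theorem iSup_fin (O : Ops (Bool × A) (Bool × J) C X) (M : Submodule ℚ X) (c : ℤ)
    (hc : ∀ μ, M ⊓ O.W μ ≠ ⊥ → ∀ a, -c ≤ μ a) (μ : A → ℤ) :
    (⨆ ν : {ν : Bool × A → ℤ // sg ν = μ}, M ⊓ O.W ν.1)
      = ⨆ ν : ↥(fin_set c μ).toFinset, M ⊓ O.W ν.1.1 := by
  apply le_antisymm
  · refine iSup_le fun ν => ?_
    by_cases h : M ⊓ O.W ν.1 = ⊥
    · rw [h]
      exact bot_le
    · have h1 : ν ∈ (fin_set c μ).toFinset := by
        rw [Set.Finite.mem_toFinset]
        exact hc _ h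
      exact le_iSup (fun ν : ↥(fin_set c μ).toFinset => M ⊓ O.W ν.1.1) ⟨ν, h1⟩
  · exact iSup_le fun ν => le_iSup (fun ν : {ν : Bool × A → ℤ // sg ν = μ} => M ⊓ O.W ν.1) ν.1

theorem fin_dm (R : Dat A J) (O : Ops (Bool × A) (Bool × J) C X) (M : Submodule ℚ X)
    (hG : Good R.dbl O M) (c : ℤ)
    (hc : ∀ μ, M ⊓ O.W μ ≠ ⊥ → ∀ a, -c ≤ μ a) (μ : A → ℤ) :
    Module.Finite ℚ ↥(M ⊓ (dO O).W μ) ∧
      (dO O).dm M μ = ∑ ν ∈ (fin_set c μ).toFinset, O.dm M ν.1 := by
  classical
  have h1 : iSupIndep (fun ν : ↥(fin_set c μ).toFinset => M ⊓ O.W ν.1.1) := by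
    refine ((iSupIndep_W O).comp (f := fun ν : ↥(fin_set c μ).toFinset => ν.1.1) ?_).mono
      fun ν => inf_le_right
    intro ν ν' h
    exact Subtype.ext (Subtype.ext h)
  have h2 := finrank_iSup _ h1 (fun ν => hG.fin _)
  unfold Ops.dm
  rw [W_dia O M hG.span, iSup_fin O M c hc]
  refine ⟨h2.1, ?_⟩
  rw [h2.2]
  exact Finset.sum_coe_sort (fin_set c μ).toFinset (fun ν => Module.finrank ℚ ↥(M ⊓ O.W ν.1))

theorem w_sg (ν : Bool × A → ℤ) (t : A → ℝ) : w ν (fun p => t p.2) = w (sg ν) t := by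
  unfold w sg
  congr 2
  rw [Fintype.sum_prod_type, Fintype.sum_bool, ← Finset.sum_add_distrib]
  refine Finset.sum_congr rfl fun a _ => ?_
  push_cast
  ring

theorem hasSum_dia (R : Dat A J) (O : Ops (Bool × A) (Bool × J) C X) (M : Submodule ℚ X)
    (hG : Good R.dbl O M) (t : A → ℝ) {S : ℝ}
    (hS : HasSum (fun ν : Bool × A → ℤ => (O.dm M ν : ℝ) * w ν (fun p => t p.2)) S) :
    HasSum (fun μ : A → ℤ => ((dO O).dm M μ : ℝ) * w μ t) S := by
  obtain ⟨c, hc⟩ := hG.bdd
  have h3 := (Equiv.sigmaFiberEquiv (sg (A := A))).hasSum_iff.mpr hS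
  refine HasSum.sigma h3 fun μ => ?_
  rw [(fin_dm R O M hG c hc μ).2, Nat.cast_sum, Finset.sum_mul]
  have h4 : ∀ ν : {ν : Bool × A → ℤ // sg ν = μ},
      ((fun ν : Bool × A → ℤ => (O.dm M ν : ℝ) * w ν (fun p => t p.2)) ∘
        (Equiv.sigmaFiberEquiv (sg (A := A)))) ⟨μ, ν⟩ = (O.dm M ν.1 : ℝ) * w μ t := by
    intro ν
    show (O.dm M ν.1 : ℝ) * w ν.1 (fun p => t p.2) = (O.dm M ν.1 : ℝ) * w μ t
    rw [w_sg, ν.2]
  have h5 : (fun ν : {ν : Bool × A → ℤ // sg ν = μ} =>
      ((fun ν : Bool × A → ℤ => (O.dm M ν : ℝ) * w ν (fun p => t p.2)) ∘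
        (Equiv.sigmaFiberEquiv (sg (A := A)))) ⟨μ, ν⟩) = fun ν => (O.dm M ν.1 : ℝ) * w μ t :=
    funext h4
  rw [h5]
  refine hasSum_sum_of_ne_finset_zero fun ν hν => ?_
  have h6 : M ⊓ O.W ν.1 = ⊥ := by
    by_contra h
    apply hν
    rw [Set.Finite.mem_toFinset]
    exact hc _ h
  unfold Ops.dm
  rw [h6, finrank_bot, Nat.cast_zero, zero_mul]

theorem U_dbl (R : Dat A J) (hside : ∀ a b, R.side a = R.side b) (t : A → ℝ) (ht : t ∈ R.U) :
    (fun p : Bool × A => t p.2) ∈ R.dbl.U := by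
  refine ⟨fun p => ht.1 _, ?_⟩
  rintro ⟨s, a⟩ ⟨s', b⟩ hne hs
  have h1 : s = s' := hs
  subst h1
  refine ht.2 a b (fun h => hne (by rw [h])) (hside a b)

theorem good_dia (R : Dat A J) (hside : ∀ a b, R.side a = R.side b)
    (O : Ops (Bool × A) (Bool × J) C X) (M : Submodule ℚ X)
    (hG : Good R.dbl O M) : Good R (dO O) M := by
  obtain ⟨c, hc⟩ := hG.bdd
  refine ⟨rels_dia R O hG.rels, fun a c x hx => hG.Zst _ _ x hx,
    fun j x hx => M.add_mem (hG.est _ x hx) (hG.est _ x hx), ?_,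
    fun μ => (fin_dm R O M hG c hc μ).1, ?_, ?_, ?_⟩
  · refine hG.span.trans (iSup_le fun ν => ?_)
    exact (inf_le_inf_left M (W_le O ν)).trans (le_iSup (fun μ => M ⊓ (dO O).W μ) (sg ν))
  · refine ⟨2 * c, fun μ hμ a => ?_⟩
    rw [W_dia O M hG.span] at hμ
    have h1 : ∃ ν : {ν : Bool × A → ℤ // sg ν = μ}, M ⊓ O.W ν.1 ≠ ⊥ := by
      by_contra h
      push Not at h
      apply hμ
      rw [iSup_eq_bot]
      exact h
    obtain ⟨ν, hν⟩ := h1
    have h2 := hc _ hν
    have h3 := congrFun ν.2 a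
    simp only [sg] at h3
    have h4 := h2 (false, a)
    have h5 := h2 (true, a)
    linarith
  · obtain ⟨d, hd⟩ := hG.gen
    refine ⟨d, fun μ hμ => ?_⟩
    rw [W_dia O M hG.span]
    refine iSup_le fun ν => ?_
    refine (hd ν.1 ?_).trans ?_
    · rw [Fintype.sum_prod_type, Fintype.sum_bool, ← Finset.sum_add_distrib]
      refine lt_of_lt_of_eq hμ ?_
      refine Finset.sum_congr rfl fun a _ => ?_
      have h3 := congrFun ν.2 a
      simp only [sg] at h3
      linarith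
    · refine iSup_le fun p => ?_
      refine le_trans ?_ (le_iSup _ (p.1.2, (p.1.1, p.2)))
      refine Submodule.map_mono ?_
      refine inf_le_inf_left M ?_
      refine (W_le O _).trans (le_of_eq ?_)
      congr 1
      funext a
      have h3 := congrFun ν.2 a
      simp only [sg] at h3
      simp only [sg, Pi.sub_apply]
      rcases p with ⟨⟨s, b⟩, q⟩
      simp only [Pi.single_apply, Prod.mk.injEq]
      by_cases hab : a = b
      · subst hab
        cases s <;> simp <;> linarith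
      · cases s <;> simp [hab] <;> linarith
  · intro t ht
    exact (hasSum_dia R O M hG t (hG.summ _ (U_dbl R hside t ht)).hasSum).summable

theorem t_DIA : S_DIA := by
  rintro A J C _ _ _ _ _ R D φ hside ⟨X, _, _, O, M, hG, hlim⟩
  refine ⟨X, inferInstance, inferInstance, dO O, M, good_dia R hside O M hG, fun t ht => ?_⟩
  have h1 := hlim _ (U_dbl R hside t ht)
  refine h1.congr' ?_
  filter_upwards [self_mem_nhdsWithin] with ε hε
  have hε' : (0 : ℝ) < ε := hε
  have h2 := hG.summ _ (U_dbl R hside _ (U_smul R ht hε'))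
  have h3 := (hasSum_dia R O M hG (ε • t) h2.hasSum).tsum_eq
  congr 1
  exact h3.symm

end Pool.Agent.Q151.SK.DIA
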