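import Pool.Agent.Q160.SK.Stm

set_option autoImplicit false

namespace Pool.Agent.Q151.SK

open Pool.Agent.Q160.SK

section

variable {A J C X : Type} [DecidableEq A] [Fintype A] [DecidableEq J] [DecidableEq C] [Fintype C]
  [AddCommGroup X] [Module ℚ X]

theorem hat_apply (T : Module.End ℚ X) (f : ℕ →₀ X) (q : ℕ) : hat T f q = T (f q) := by
  unfold hat
  simp

theorem zz_single (q : ℕ) (x : X) : zz (Finsupp.single q x) = Finsupp.single (q + 1) x := by
  unfold zz
  simp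

theorem dd_single (q : ℕ) (x : X) :
    dd (Finsupp.single q x) = (q : ℚ) • Finsupp.single (q - 1) x := by
  unfold dd
  simp

theorem zzdd_apply (f : ℕ →₀ X) (q : ℕ) : (zz (dd f)) q = (q : ℚ) • f q := by
  induction f using Finsupp.induction_linear with
  | zero => simp
  | add f g hf hg => rw [map_add, map_add, Finsupp.add_apply, hf, hg, Finsupp.add_apply, smul_add]
  | single n x =>
    rw [dd_single, map_smul, zz_single, Finsupp.smul_apply]
    rcases Nat.eq_zero_or_pos n with h | h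
    · subst h
      by_cases hq : q = 0
      · subst hq; simp
      · rw [Finsupp.single_apply, Finsupp.single_apply, if_neg (Ne.symm hq)]
        simp
    · rw [Nat.sub_add_cancel h, Finsupp.single_apply]
      by_cases hq : n = q
      · subst hq; simp
      · simp [hq]

theorem ind_h_apply (R : Dat A J) (O : Ops A J C X) (i : J) (a : A) (f : ℕ →₀ X) (q : ℕ) :
    ((ind R O i).h a f) q = O.h a (f q) + ((R.al i a : ℚ) * (q : ℚ)) • f q := by
  show ((hat (O.h a) + (R.al i a : ℚ) • (zz * dd) : Module.End ℚ (ℕ →₀ X)) f) q = _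
  rw [LinearMap.add_apply, Finsupp.add_apply, hat_apply, LinearMap.smul_apply, Finsupp.smul_apply,
    Module.End.mul_apply, zzdd_apply, smul_smul]

theorem coef_W (R : Dat A J) (O : Ops A J C X) (i : J) (μ : A → ℤ) (f : ℕ →₀ X)
    (hf : f ∈ (ind R O i).W μ) (q : ℕ) : f q ∈ O.W (μ - (q : ℤ) • R.al i) := by
  intro a
  have h1 := DFunLike.congr_fun (hf a) q
  rw [ind_h_apply, Finsupp.smul_apply] at h1
  have h2 : O.h a (f q) = (μ a : ℚ) • f q - ((R.al i a : ℚ) * (q : ℚ)) • f q := by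
    rw [← h1, add_sub_cancel_right]
  rw [h2, ← sub_smul]
  congr 1
  simp only [Pi.sub_apply, Pi.smul_apply, smul_eq_mul]
  push_cast
  ring

/-- conversely -/
theorem W_of_coef (R : Dat A J) (O : Ops A J C X) (i : J) (μ : A → ℤ) (f : ℕ →₀ X)
    (hf : ∀ q : ℕ, f q ∈ O.W (μ - (q : ℤ) • R.al i)) : f ∈ (ind R O i).W μ := by
  intro a
  ext q
  rw [ind_h_apply, Finsupp.smul_apply, hf q a, ← add_smul]
  congr 1
  simp only [Pi.sub_apply, Pi.smul_apply, smul_eq_mul]
  push_cast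
  ring

theorem al_tgt (R : Dat A J) (i : J) : R.al i (R.tgt i) = 1 := by
  unfold Dat.al
  simp [(R.ne i).symm]

theorem al_src (R : Dat A J) (i : J) : R.al i (R.src i) = -1 := by
  unfold Dat.al
  simp [(R.ne i)]

theorem al_nonneg (R : Dat A J) (i : J) (a : A) (h : a ≠ R.src i) : 0 ≤ R.al i a := by
  unfold Dat.al
  rw [if_neg h]
  split_ifs <;> simp

/-- coefficients vanish from some point on -/
theorem coef_zero (R : Dat A J) (O : Ops A J C X) (i : J) (M : Submodule ℚ X) (c : ℤ)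
    (hc : ∀ μ, M ⊓ O.W μ ≠ ⊥ → ∀ a, -c ≤ μ a) (μ : A → ℤ) (f : ℕ →₀ X)
    (hf : f ∈ indM R O i M ⊓ (ind R O i).W μ) (q : ℕ) (hq : μ (R.tgt i) + c < q) : f q = 0 := by
  by_contra h
  have h1 : f q ∈ M ⊓ O.W (μ - (q : ℤ) • R.al i) := ⟨hf.1.1 q, coef_W R O i μ f hf.2 q⟩
  have h2 : M ⊓ O.W (μ - (q : ℤ) • R.al i) ≠ ⊥ := by
    intro h3
    rw [h3] at h1
    exact h ((Submodule.mem_bot ℚ).mp h1)
  have h4 := hc _ h2 (R.tgt i)
  rw [Pi.sub_apply, Pi.smul_apply, al_tgt, smul_eq_mul, mul_one] at h4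
  linarith

/-- the map to the coefficients -/
noncomputable def coefMap (R : Dat A J) (O : Ops A J C X) (i : J) (M : Submodule ℚ X) (μ : A → ℤ)
    (Q : ℕ) : ↥(indM R O i M ⊓ (ind R O i).W μ) →ₗ[ℚ]
      ((q : Fin Q) → ↥(M ⊓ O.W (μ - (((q : ℕ) : ℤ)) • R.al i))) where
  toFun := fun f q => ⟨f.1 q, f.2.1.1 q, coef_W R O i μ f.1 f.2.2 q⟩
  map_add' := fun f g => by
    funext q
    rfl
  map_smul' := fun c f => by
    funext q
    rfl

theorem coefMap_inj (R : Dat A J) (O : Ops A J C X) (i : J) (M : Submodule ℚ X) (c : ℤ)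
    (hc : ∀ μ, M ⊓ O.W μ ≠ ⊥ → ∀ a, -c ≤ μ a) (μ : A → ℤ) :
    Function.Injective (coefMap R O i M μ ((μ (R.tgt i) + c).toNat + 1)) := by
  rw [injective_iff_map_eq_zero]
  intro f hf
  apply Subtype.ext
  ext q
  by_cases hq : q < (μ (R.tgt i) + c).toNat + 1
  · have h1 := congrFun hf ⟨q, hq⟩
    have h2 := congrArg Subtype.val h1
    exact h2
  · exact coef_zero R O i M c hc μ f.1 f.2 q (by omega)

theorem t_FIN : S_FIN := by
  intro A J C X _ _ _ _ _ _ _ R O M i hG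
  obtain ⟨c, hc⟩ := hG.bdd
  have hfin := hG.fin
  refine ⟨fun μ => ?_, fun μ => ?_, c, fun μ hμ a ha => ?_⟩
  · have : ∀ q : Fin ((μ (R.tgt i) + c).toNat + 1),
        Module.Finite ℚ ↥(M ⊓ O.W (μ - (((q : ℕ) : ℤ)) • R.al i)) := fun q => hfin _
    exact Module.Finite.of_injective _ (coefMap_inj R O i M c hc μ)
  · have : ∀ q : Fin ((μ (R.tgt i) + c).toNat + 1),
        Module.Finite ℚ ↥(M ⊓ O.W (μ - (((q : ℕ) : ℤ)) • R.al i)) := fun q => hfin _
    refine ⟨(μ (R.tgt i) + c).toNat + 1, ?_⟩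
    have h1 := LinearMap.finrank_le_finrank_of_injective (coefMap_inj R O i M c hc μ)
    rw [Module.finrank_pi_fintype] at h1
    rw [Finset.sum_range]
    exact h1
  · obtain ⟨f, hf, hf0⟩ := Submodule.exists_mem_ne_zero_of_ne_bot hμ
    have : ∃ q, f q ≠ 0 := by
      by_contra h
      push Not at h
      exact hf0 (Finsupp.ext h)
    obtain ⟨q, hq⟩ := this
    have h1 : f q ∈ M ⊓ O.W (μ - (q : ℤ) • R.al i) := ⟨hf.1.1 q, coef_W R O i μ f hf.2 q⟩
    have h2 : M ⊓ O.W (μ - (q : ℤ) • R.al i) ≠ ⊥ := by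
      intro h3
      rw [h3] at h1
      exact hq ((Submodule.mem_bot ℚ).mp h1)
    have h4 := hc _ h2 a
    rw [Pi.sub_apply, Pi.smul_apply, smul_eq_mul] at h4
    have h5 := al_nonneg R i a ha
    have h6 : 0 ≤ (q : ℤ) * R.al i a := mul_nonneg (Int.natCast_nonneg _) h5
    linarith

end

end Pool.Agent.Q151.SK
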