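import Pool.Agent.Q160.SK.Stm

set_option autoImplicit false

namespace Pool.Agent.Q151.SK

open Filter Topology Pool.Agent.Q160.SK

theorem U_smul {A J : Type} (R : Dat A J) {t : A → ℝ} (ht : t ∈ R.U) {ε : ℝ} (hε : 0 < ε) :
    ε • t ∈ R.U := by
  refine ⟨fun a => ?_, fun a b hab hs h => ?_⟩
  · simpa using mul_pos hε (ht.1 a)
  · refine ht.2 a b hab hs ?_
    have : ε * t a = ε * t b := by simpa using h
    exact mul_left_cancel₀ hε.ne' this

theorem side_sw {A J : Type} [DecidableEq A] (R : Dat A J) (i : J) (a : A) :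
    R.side (R.sw i a) = R.side a := by
  unfold Dat.sw
  by_cases h1 : a = R.src i
  · subst h1
    rw [Equiv.swap_apply_left]
    exact (R.side_eq i).symm
  · by_cases h2 : a = R.tgt i
    · subst h2
      rw [Equiv.swap_apply_right]
      exact R.side_eq i
    · rw [Equiv.swap_apply_of_ne_of_ne h1 h2]

theorem U_sw {A J : Type} [DecidableEq A] (R : Dat A J) (i : J) {t : A → ℝ} (ht : t ∈ R.U) :
    (fun a => t (R.sw i a)) ∈ R.U := by
  refine ⟨fun a => ht.1 _, fun a b hab hs h => ?_⟩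
  refine ht.2 (R.sw i a) (R.sw i b) (fun h2 => hab ((R.sw i).injective h2)) ?_ h
  rw [side_sw, side_sw, hs]

theorem U_ne {A J : Type} (R : Dat A J) (i : J) {t : A → ℝ} (ht : t ∈ R.U) :
    t (R.src i) ≠ t (R.tgt i) :=
  ht.2 _ _ (R.ne i) (R.side_eq i)

/-- `ε / (exp (-ε x) - exp (-ε y)) → 1 / (y - x)` -/
theorem tend_quot (x y : ℝ) (h : x ≠ y) :
    Tendsto (fun ε : ℝ => ε / (Real.exp (-(ε * x)) - Real.exp (-(ε * y)))) (𝓝[>] 0)
      (𝓝 (1 / (y - x))) := by
  have hd : HasDerivAt (fun ε : ℝ => Real.exp (-(ε * x)) - Real.exp (-(ε * y))) (y - x) 0 := by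
    have h1 : HasDerivAt (fun ε : ℝ => Real.exp (-(ε * x))) (Real.exp (-(0 * x)) * (-(1 * x))) 0 :=
      ((hasDerivAt_id (0 : ℝ)).mul_const x).neg.exp
    have h2 : HasDerivAt (fun ε : ℝ => Real.exp (-(ε * y))) (Real.exp (-(0 * y)) * (-(1 * y))) 0 :=
      ((hasDerivAt_id (0 : ℝ)).mul_const y).neg.exp
    exact (h1.sub h2).congr_deriv (by simp; ring)
  have h1 := hd.tendsto_slope_zero_right
  have hne : y - x ≠ 0 := sub_ne_zero.mpr (Ne.symm h)
  have h2 := h1.inv₀ hne
  rw [one_div]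
  refine h2.congr' ?_
  filter_upwards [self_mem_nhdsWithin] with ε hε
  simp only [zero_add, zero_mul, neg_zero, Real.exp_zero, sub_self, sub_zero, smul_eq_mul]
  rw [mul_inv, inv_inv, div_eq_mul_inv]

theorem tend_exp (c : ℝ) :
    Tendsto (fun ε : ℝ => Real.exp (-(ε * c))) (𝓝[>] 0) (𝓝 1) := by
  have : Continuous (fun ε : ℝ => Real.exp (-(ε * c))) := by fun_prop
  have h := this.tendsto 0
  simp only [zero_mul, neg_zero, Real.exp_zero] at h
  exact h.mono_left nhdsWithin_le_nhds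

theorem t_LIM : S_LIM := by
  intro A J _ _ _ R i D χ F F' φ hF hlim t ht
  have hsw := U_sw R i ht
  have hne := U_ne R i ht
  have h1 := hlim t ht
  have h2 := hlim _ hsw
  have e1 := tend_exp (∑ a, (χ a : ℝ) * t a)
  have e2 := tend_exp (∑ a, (χ a : ℝ) * t (R.sw i a))
  have e3 := tend_exp (t (R.src i))
  have e4 := tend_exp (t (R.tgt i))
  have q := tend_quot _ _ hne
  have key := (((e3.mul (e1.mul h1)).sub (e4.mul (e2.mul h2))).mul q)
  have hval : (1 * (1 * φ t) - 1 * (1 * φ (fun a => t (R.sw i a)))) *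
      (1 / (t (R.tgt i) - t (R.src i)))
      = (φ t - φ (fun a => t (R.sw i a))) / (t (R.tgt i) - t (R.src i)) := by
    ring
  rw [hval] at key
  refine key.congr' ?_
  filter_upwards [self_mem_nhdsWithin] with ε hε
  have hε' : (0 : ℝ) < ε := hε
  have h3 := hF (ε • t) (U_smul R ht hε')
  simp only [Pi.smul_apply, smul_eq_mul] at h3
  have s1 : (∑ a, (χ a : ℝ) * (ε * t a)) = ε * ∑ a, (χ a : ℝ) * t a := by
    rw [Finset.mul_sum]
    exact Finset.sum_congr rfl fun a _ => by ring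
  have s2 : (∑ a, (χ a : ℝ) * (ε * t (R.sw i a))) = ε * ∑ a, (χ a : ℝ) * t (R.sw i a) := by
    rw [Finset.mul_sum]
    exact Finset.sum_congr rfl fun a _ => by ring
  rw [s1, s2] at h3
  have hd : Real.exp (-(ε * t (R.src i))) - Real.exp (-(ε * t (R.tgt i))) ≠ 0 := by
    intro h0
    have h4 := Real.exp_injective (sub_eq_zero.mp h0)
    have h5 : ε * t (R.src i) = ε * t (R.tgt i) := by linarith
    exact hne (mul_left_cancel₀ hε'.ne' h5)
  have h6 : (ε • fun a => t (R.sw i a)) = fun a => ε * t (R.sw i a) := rfl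
  rw [h6]
  rw [eq_comm, pow_succ]
  rw [mul_div_assoc', eq_div_iff hd]
  calc ε ^ D * ε * F' (ε • t) * (Real.exp (-(ε * t (R.src i))) - Real.exp (-(ε * t (R.tgt i))))
      = ε ^ D * ε * ((Real.exp (-(ε * t (R.src i))) - Real.exp (-(ε * t (R.tgt i)))) *
          F' (ε • t)) := by ring
    _ = _ := by rw [h3]; ring

end Pool.Agent.Q151.SK
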