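import Pool.Agent.Q160.SK.Stm

set_option autoImplicit false

namespace Pool.Agent.Q151.SK

open Pool.Agent.Q160.SK

section

variable {A J C X : Type} [DecidableEq A] [Fintype A] [DecidableEq J] [DecidableEq C] [Fintype C]
  [AddCommGroup X] [Module ℚ X]

theorem tens_Z (R : Dat A J) (O : Ops A J C X) (a : A) (c : C) (g : A × C → X) (p : A × C) :
    (tens R O).Z a c g p = O.Z a c (g p) := rfl

theorem tens_e (R : Dat A J) (O : Ops A J C X) (j : J) (g : A × C → X) (p : A × C) :
    (tens R O).e j g p = O.e j (g p) + (if p.1 = R.tgt j then g (R.src j, p.2) else 0) := by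
  unfold tens
  simp only [LinearMap.pi_apply, LinearMap.add_apply]
  split_ifs <;> simp

theorem tens_h (R : Dat A J) (O : Ops A J C X) (a : A) (g : A × C → X) (p : A × C) :
    (tens R O).h a g p = O.h a (g p) + (if p.1 = a then g p else 0) := by
  unfold tens
  simp only [LinearMap.pi_apply, LinearMap.add_apply]
  split_ifs <;> simp

theorem tens_W (R : Dat A J) (O : Ops A J C X) (μ : A → ℤ) (g : A × C → X)
    (hg : g ∈ (tens R O).W μ) (p : A × C) : g p ∈ O.W (μ - Pi.single p.1 1) := by
  intro a
  have h1 := congrFun (hg a) p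
  rw [tens_h, Pi.smul_apply] at h1
  have h2 : O.h a (g p) = (μ a : ℚ) • g p - (if p.1 = a then g p else 0) := by
    rw [← h1, add_sub_cancel_right]
  rw [h2]
  by_cases h : p.1 = a
  · subst h
    simp [sub_smul]
  · rw [if_neg h, Pi.sub_apply, Pi.single_eq_of_ne (Ne.symm h), sub_zero, sub_zero]

theorem sum_row (a0 : A) (F : A → C → X) :
    ∑ p : A × C, (if p.1 = a0 then F p.1 p.2 else 0) = ∑ c, F a0 c := by
  rw [Fintype.sum_prod_type, Finset.sum_comm]
  refine Finset.sum_congr rfl fun c _ => ?_
  rw [Finset.sum_ite_eq' Finset.univ a0 (fun x => F x c), if_pos (Finset.mem_univ _)]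

theorem t_PRK (hN : S_NOE) : S_PRK := by
  intro A J C X _ _ _ _ _ _ _ R O M i hG
  have hR := hG.rels
  refine ⟨?_, ?_, ?_, ?_, ?_, ?_, ?_⟩
  · intro a b c
    refine LinearMap.ext fun g => funext fun p => ?_
    have h1 := LinearMap.congr_fun (hR.hZ a b c) (g p)
    rw [Module.End.mul_apply, LinearMap.add_apply, Module.End.mul_apply] at h1
    rw [Module.End.mul_apply, LinearMap.add_apply, Module.End.mul_apply, Pi.add_apply, tens_h,
      tens_Z, tens_Z, tens_h, h1, map_add]
    by_cases hab : a = b
    · subst hab
      by_cases hp : p.1 = a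
      · simp only [hp, if_true, tens_Z]
      · simp only [hp, if_true, if_false, tens_Z, map_zero]
        abel
    · by_cases hp : p.1 = a
      · simp only [hp, hab, if_true, if_false, LinearMap.zero_apply, Pi.zero_apply]
        abel
      · simp only [hp, hab, if_false, LinearMap.zero_apply, Pi.zero_apply, map_zero]
  · intro a
    refine LinearMap.ext fun g => funext fun p => ?_
    have h1 := LinearMap.congr_fun (hR.he a i) (g p)
    rw [Module.End.mul_apply, LinearMap.add_apply, Module.End.mul_apply,
      LinearMap.smul_apply] at h1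
    rw [Module.End.mul_apply, LinearMap.add_apply, Module.End.mul_apply, Pi.add_apply,
      LinearMap.smul_apply, Pi.smul_apply, tens_h, tens_e, tens_e, tens_h, tens_h, map_add,
      map_add, h1, smul_add]
    by_cases hp : p.1 = R.tgt i
    · have hal : (R.al i a : ℚ) = (if a = R.tgt i then 1 else 0) - (if a = R.src i then 1 else 0) := by
        unfold Dat.al
        push_cast
        rfl
      simp only [hp, if_true, hal]
      by_cases h2 : a = R.tgt i
      · have h3 : ¬ R.tgt i = R.src i := Ne.symm (R.ne i)
        have h4 : ¬ R.src i = R.tgt i := R.ne i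
        subst h2
        simp only [h3, h4, if_true, if_false]
        simp
      · by_cases h3 : a = R.src i
        · subst h3
          have h4 : ¬ R.src i = R.tgt i := R.ne i
          have h5 : ¬ R.tgt i = R.src i := Ne.symm (R.ne i)
          simp only [h4, h5, if_true, if_false]
          simp
          abel
        · have h6 : ¬ R.tgt i = a := fun h => h2 h.symm
          have h7 : ¬ R.src i = a := fun h => h3 h.symm
          simp only [h2, h3, h6, h7, if_false]
          simp
    · simp only [hp, if_false, map_zero, smul_zero, add_zero]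
      by_cases h2 : p.1 = a
      · simp only [h2, if_true]
        abel
      · simp only [h2, if_false, map_zero]
        abel
  · intro a c
    refine LinearMap.ext fun g => funext fun p => ?_
    have h1 := LinearMap.congr_fun (hR.eZ i a c) (g p)
    rw [Module.End.mul_apply, LinearMap.add_apply, Module.End.mul_apply] at h1
    rw [Module.End.mul_apply, LinearMap.add_apply, Module.End.mul_apply, Pi.add_apply, tens_e,
      tens_Z, tens_Z, tens_Z, tens_e, h1, map_add]
    by_cases ha : a = R.src i
    · by_cases hp : p.1 = R.tgt i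
      · simp only [ha, hp, if_true, tens_Z]
        abel
      · simp only [ha, hp, if_true, if_false, tens_Z, map_zero]
        abel
    · by_cases hp : p.1 = R.tgt i
      · simp only [ha, hp, if_true, if_false, LinearMap.zero_apply, Pi.zero_apply]
        abel
      · simp only [ha, hp, if_false, LinearMap.zero_apply, Pi.zero_apply, map_zero]
  · rintro a c g ⟨hg, hsum⟩
    refine ⟨fun p => hG.Zst a c _ (hg p), ?_⟩
    have h1 : ∀ p : A × C, O.Z p.1 p.2 ((tens R O).Z a c g p) = O.Z a c (O.Z p.1 p.2 (g p)) := by
      intro p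
      rw [tens_Z]
      exact LinearMap.congr_fun (hR.ZZ p.1 p.2 a c) (g p)
    rw [Finset.sum_congr rfl fun p _ => h1 p, ← map_sum, hsum, map_zero]
  · rintro g ⟨hg, hsum⟩
    refine ⟨fun p => ?_, ?_⟩
    · rw [tens_e]
      refine M.add_mem (hG.est i _ (hg p)) ?_
      split_ifs
      · exact hg _
      · exact M.zero_mem
    · have h2 : O.e i (∑ p : A × C, O.Z p.1 p.2 (g p)) = 0 := by rw [hsum, map_zero]
      rw [map_sum] at h2
      have h3 : ∀ p : A × C, O.e i (O.Z p.1 p.2 (g p)) = O.Z p.1 p.2 (O.e i (g p)) +
          (if p.1 = R.src i then O.Z (R.tgt i) p.2 (g p) else 0) := by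
        intro p
        have h1 := LinearMap.congr_fun (hR.eZ i p.1 p.2) (g p)
        rw [Module.End.mul_apply, LinearMap.add_apply, Module.End.mul_apply] at h1
        rw [h1]
        split_ifs <;> simp
      rw [Finset.sum_congr rfl fun p _ => h3 p, Finset.sum_add_distrib] at h2
      have h4 : ∀ p : A × C, O.Z p.1 p.2 ((tens R O).e i g p) = O.Z p.1 p.2 (O.e i (g p)) +
          (if p.1 = R.tgt i then O.Z p.1 p.2 (g (R.src i, p.2)) else 0) := by
        intro p
        rw [tens_e, map_add]
        split_ifs <;> simp
      rw [Finset.sum_congr rfl fun p _ => h4 p, Finset.sum_add_distrib]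
      refine Eq.trans ?_ h2
      congr 1
      rw [sum_row (R.tgt i) (fun x y => O.Z x y (g (R.src i, y))),
        sum_row (R.src i) (fun x y => O.Z (R.tgt i) y (g (x, y)))]
  · obtain ⟨c, hc⟩ := hG.bdd
    refine ⟨c, fun μ hμ a => ?_⟩
    obtain ⟨g, hg, hg0⟩ := Submodule.exists_mem_ne_zero_of_ne_bot hμ
    obtain ⟨p, hp⟩ : ∃ p, g p ≠ 0 := by
      by_contra h
      push Not at h
      exact hg0 (funext h)
    have h1 : g p ∈ M ⊓ O.W (μ - Pi.single p.1 1) := ⟨hg.1.1 p, tens_W R O μ g hg.2 p⟩
    have h2 : M ⊓ O.W (μ - Pi.single p.1 1) ≠ ⊥ := by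
      intro h3
      rw [h3] at h1
      exact hp ((Submodule.mem_bot ℚ).mp h1)
    have h4 := hc _ h2 a
    rw [Pi.sub_apply] at h4
    have h5 : (0 : ℤ) ≤ (Pi.single p.1 1 : A → ℤ) a := by
      by_cases h : a = p.1
      · subst h; simp
      · rw [Pi.single_eq_of_ne h]
    linarith
  · exact hN A J C X R O M hG

end

end Pool.Agent.Q151.SK
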