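import Pool.Agent.Q151.SK.FIN

set_option autoImplicit false

namespace Pool.Agent.Q151.SK

open Pool.Agent.Q160.SK

section

variable {A J C X : Type} [DecidableEq A] [Fintype A] [DecidableEq J] [DecidableEq C] [Fintype C]
  [AddCommGroup X] [Module ℚ X]

/-- **Independence of the weight spaces.** -/
theorem indep (O : Ops A J C X) (s : Finset (A → ℤ)) :
    ∀ x : (A → ℤ) → X, (∀ μ ∈ s, x μ ∈ O.W μ) → ∑ μ ∈ s, x μ = 0 → ∀ μ ∈ s, x μ = 0 := by
  classical
  induction s using Finset.induction_on with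
  | empty =>
    intro x _ _ μ hμ
    exact absurd hμ (Finset.notMem_empty μ)
  | insert ν s hν ih =>
    intro x hx hsum
    rw [Finset.sum_insert hν] at hsum
    have key : ∀ μ ∈ s, x μ = 0 := by
      intro μ hμ
      have hne : μ ≠ ν := by
        rintro rfl
        exact hν hμ
      obtain ⟨a, ha⟩ : ∃ a, μ a ≠ ν a := by
        by_contra h
        push Not at h
        exact hne (funext h)
      have h1 := ih (fun κ => ((κ a : ℚ) - (ν a : ℚ)) • x κ)
        (fun κ hκ => (O.W κ).smul_mem _ (hx κ (Finset.mem_insert_of_mem hκ))) (by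
          have h2 := congrArg (fun y => O.h a y - (ν a : ℚ) • y) hsum
          simp only [map_add, map_sum, map_zero, smul_zero, sub_zero, smul_add,
            Finset.smul_sum] at h2
          rw [hx ν (Finset.mem_insert_self ν s) a] at h2
          rw [add_sub_add_left_eq_sub, ← Finset.sum_sub_distrib] at h2
          rw [← h2]
          refine Finset.sum_congr rfl fun κ hκ => ?_
          rw [sub_smul, hx κ (Finset.mem_insert_of_mem hκ) a]) μ hμ
      have h3 : ((μ a : ℚ) - (ν a : ℚ)) ≠ 0 := by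
        rw [sub_ne_zero]
        exact_mod_cast ha
      exact (smul_eq_zero.mp h1).resolve_left h3
    intro μ hμ
    rcases Finset.mem_insert.mp hμ with rfl | h
    · rw [Finset.sum_eq_zero key, add_zero] at hsum
      exact hsum
    · exact key μ h

/-- elements of a supremum of subspaces of the weight spaces -/
theorem exists_fin (P : (A → ℤ) → Submodule ℚ X) (x : X) (hx : x ∈ ⨆ μ, P μ) :
    ∃ (s : Finset (A → ℤ)) (y : (A → ℤ) → X), (∀ μ, y μ ∈ P μ) ∧ (∀ μ, μ ∉ s → y μ = 0) ∧
      ∑ μ ∈ s, y μ = x := by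
  obtain ⟨f, hf, hsum⟩ := (Submodule.mem_iSup_iff_exists_finsupp P x).mp hx
  exact ⟨f.support, f, hf, fun μ hμ => Finsupp.notMem_support_iff.mp hμ, hsum⟩

/-- an element of weight `μ` in a supremum of subspaces `P ν ≤ W ν` lies in `P μ` -/
theorem mem_of_iSup (O : Ops A J C X) (P : (A → ℤ) → Submodule ℚ X) (hP : ∀ μ, P μ ≤ O.W μ)
    (μ : A → ℤ) (x : X) (hx : x ∈ O.W μ) (hx2 : x ∈ ⨆ ν, P ν) : x ∈ P μ := by
  classical
  obtain ⟨s, y, hy, hy0, hsum⟩ := exists_fin P x hx2
  have hsum' : ∑ ν ∈ insert μ s, y ν = x := by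
    by_cases h : μ ∈ s
    · rw [Finset.insert_eq_of_mem h, hsum]
    · rw [Finset.sum_insert h, hy0 μ h, zero_add, hsum]
  have h1 : ∑ ν ∈ insert μ s, (y ν - if ν = μ then x else 0) = 0 := by
    rw [Finset.sum_sub_distrib, hsum', Finset.sum_ite_eq', if_pos (Finset.mem_insert_self μ s),
      sub_self]
  have h2 := indep O (insert μ s) (fun ν => y ν - if ν = μ then x else 0) (by
    intro ν _
    refine (O.W ν).sub_mem (hP ν (hy ν)) ?_
    split_ifs with h
    · rw [h]; exact hx
    · exact (O.W ν).zero_mem) h1 μ (Finset.mem_insert_self μ s)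
  simp only [if_true] at h2
  rw [← sub_eq_zero.mp h2]
  exact hy μ

/-- the weight spaces are independent -/
theorem iSupIndep_W (O : Ops A J C X) : iSupIndep O.W := by
  classical
  rw [iSupIndep_def]
  intro μ
  rw [Submodule.disjoint_def]
  intro x hx hx2
  have h1 : x ∈ ⨆ ν, (if ν = μ then (⊥ : Submodule ℚ X) else O.W ν) := by
    refine (?_ : (⨆ j, ⨆ (_ : j ≠ μ), O.W j) ≤ _) hx2
    refine iSup_le fun j => iSup_le fun hj => ?_
    refine le_trans ?_ (le_iSup _ j)
    rw [if_neg hj]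
  have h2 := mem_of_iSup O (fun ν => if ν = μ then (⊥ : Submodule ℚ X) else O.W ν) (by
    intro ν
    split_ifs
    · exact bot_le
    · exact le_rfl) μ x hx h1
  simpa using h2

theorem e_W (R : Dat A J) (O : Ops A J C X) (j : J)
    (he : ∀ a, O.h a * O.e j = O.e j * O.h a + (R.al j a : ℚ) • O.e j) (μ : A → ℤ) (x : X)
    (hx : x ∈ O.W μ) : O.e j x ∈ O.W (μ + R.al j) := by
  intro a
  have h1 := LinearMap.congr_fun (he a) x
  rw [Module.End.mul_apply, LinearMap.add_apply, Module.End.mul_apply, LinearMap.smul_apply,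
    hx a, map_smul, ← add_smul] at h1
  rw [h1, Pi.add_apply, Int.cast_add]

theorem pow_e_W (R : Dat A J) (O : Ops A J C X) (j : J)
    (he : ∀ a, O.h a * O.e j = O.e j * O.h a + (R.al j a : ℚ) • O.e j) (μ : A → ℤ) (x : X)
    (hx : x ∈ O.W μ) (n : ℕ) : (O.e j ^ n) x ∈ O.W (μ + (n : ℤ) • R.al j) := by
  induction n with
  | zero => simpa using hx
  | succ n ih =>
    rw [pow_succ', Module.End.mul_apply]
    have h1 := e_W R O j he _ _ ih
    rw [Nat.cast_succ, add_smul, one_smul, ← add_assoc]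
    exact h1

/-- polynomials with coefficients in `M` -/
def coefM (M : Submodule ℚ X) : Submodule ℚ (ℕ →₀ X) where
  carrier := {f | ∀ q, f q ∈ M}
  add_mem' := fun {f g} hf hg q => by rw [Finsupp.add_apply]; exact M.add_mem (hf q) (hg q)
  zero_mem' := fun q => by rw [Finsupp.zero_apply]; exact M.zero_mem
  smul_mem' := fun c f hf q => by rw [Finsupp.smul_apply]; exact M.smul_mem c (hf q)

theorem single_W (R : Dat A J) (O : Ops A J C X) (i : J) (ν : A → ℤ) (q : ℕ) (x : X)
    (hx : x ∈ O.W ν) : Finsupp.single q x ∈ (ind R O i).W (ν + (q : ℤ) • R.al i) := by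
  refine W_of_coef R O i _ _ fun k => ?_
  rw [Finsupp.single_apply]
  split_ifs with h
  · subst h
    rw [add_sub_cancel_right]
    exact hx
  · exact Submodule.zero_mem _

theorem coefM_span (R : Dat A J) (O : Ops A J C X) (i : J) (M : Submodule ℚ X)
    (hM : M ≤ ⨆ μ, M ⊓ O.W μ) : coefM M ≤ ⨆ μ, coefM M ⊓ (ind R O i).W μ := by
  intro f hf
  rw [← Finsupp.sum_single f]
  refine Submodule.sum_mem _ fun q _ => ?_
  have h1 : Submodule.map (Finsupp.lsingle q : X →ₗ[ℚ] (ℕ →₀ X)) M
      ≤ ⨆ μ, coefM M ⊓ (ind R O i).W μ := by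
    refine (Submodule.map_mono hM).trans ?_
    rw [Submodule.map_iSup]
    refine iSup_le fun ν => ?_
    refine le_trans ?_ (le_iSup (fun μ => coefM M ⊓ (ind R O i).W μ) (ν + (q : ℤ) • R.al i))
    rintro _ ⟨x, hx, rfl⟩
    refine ⟨fun k => ?_, single_W R O i ν q x hx.2⟩
    rw [Finsupp.lsingle_apply, Finsupp.single_apply]
    split_ifs
    · exact hx.1
    · exact M.zero_mem
  exact h1 ⟨f q, hf q, rfl⟩

theorem t_SPA (h1 : S_REL) : S_SPA := by
  intro A J C X _ _ _ _ _ _ _ R O M i hG f hf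
  have hrel := h1 A J C X R O i hG.rels
  obtain ⟨hfM, N, hN⟩ := hf
  have h2 := coefM_span R O i M hG.span (show f ∈ coefM M from hfM)
  obtain ⟨s, y, hy, hy0, hsum⟩ := exists_fin _ f h2
  have h3 : ∑ μ ∈ s, ((ind R O i).e i ^ N) (y μ) = 0 := by
    rw [← map_sum, hsum, hN]
  -- shift of the index
  have h4 : ∀ μ ∈ s, ((ind R O i).e i ^ N) (y μ) = 0 := by
    have h5 := indep (ind R O i) (s.map (Equiv.addRight ((N : ℤ) • R.al i)).toEmbedding)
      (fun ν => ((ind R O i).e i ^ N) (y (ν - (N : ℤ) • R.al i))) (by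
        intro ν hν
        obtain ⟨μ, hμ, rfl⟩ := Finset.mem_map.mp hν
        simp only [Equiv.coe_toEmbedding, Equiv.coe_addRight, add_sub_cancel_right]
        exact pow_e_W R (ind R O i) i (fun a => hrel.he a i) μ _ (hy μ).2 N) (by
        rw [Finset.sum_map]
        simp only [Equiv.coe_toEmbedding, Equiv.coe_addRight, add_sub_cancel_right]
        exact h3)
    intro μ hμ
    have h6 := h5 (μ + (N : ℤ) • R.al i) (Finset.mem_map.mpr ⟨μ, hμ, rfl⟩)
    simpa using h6
  rw [← hsum]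
  refine Submodule.sum_mem _ fun μ hμ => ?_
  refine Submodule.mem_iSup_of_mem μ ⟨⟨(hy μ).1, N, h4 μ hμ⟩, (hy μ).2⟩

end

end Pool.Agent.Q151.SK
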