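import Pool.Agent.Q151.SK.PRK
import Pool.Agent.Q151.SK.GFU

set_option autoImplicit false

namespace Pool.Agent.Q151.SK

open Pool.Agent.Q160.SK

section

variable {A J C X : Type} [DecidableEq A] [Fintype A] [DecidableEq J] [DecidableEq C] [Fintype C]
  [AddCommGroup X] [Module ℚ X]

theorem tw_W (O : Ops A J C X) (χ μ : A → ℤ) : (O.tw χ).W μ = O.W (μ - χ) := by
  ext x
  refine forall_congr' fun a => ?_
  show (O.h a + (χ a : ℚ) • (1 : Module.End ℚ X)) x = (μ a : ℚ) • x ↔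
    O.h a x = (((μ - χ) a : ℤ) : ℚ) • x
  rw [LinearMap.add_apply, LinearMap.smul_apply, Module.End.one_apply, Pi.sub_apply, Int.cast_sub,
    sub_smul, eq_sub_iff_add_eq]

theorem tens_tw_W (R : Dat A J) (O : Ops A J C X) (χ μ : A → ℤ) :
    (tens R (O.tw χ)).W μ = (tens R O).W (μ - χ) := by
  ext g
  refine forall_congr' fun a => ?_
  rw [funext_iff, funext_iff]
  refine forall_congr' fun p => ?_
  rw [tens_h, tens_h]
  show (O.h a + (χ a : ℚ) • (1 : Module.End ℚ X)) (g p) + (if p.1 = a then g p else 0)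
    = (μ a : ℚ) • g p ↔ O.h a (g p) + (if p.1 = a then g p else 0)
    = (((μ - χ) a : ℤ) : ℚ) • g p
  rw [LinearMap.add_apply, LinearMap.smul_apply, Module.End.one_apply, Pi.sub_apply, Int.cast_sub,
    sub_smul, eq_sub_iff_add_eq, add_right_comm]

theorem van_transfer (R : Dat A J) {C' X' : Type} [DecidableEq C'] [Fintype C'] [AddCommGroup X']
    [Module ℚ X'] (O₁ O₂ : Ops A J C' X') (i : J) (M : Submodule ℚ X') (χ : A → ℤ) (k : ℤ)
    (he : O₂.e i = O₁.e i) (hW : ∀ μ, O₂.W μ = O₁.W (μ - χ))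
    (hχ : χ (R.tgt i) - χ (R.src i) = -k) (h : Van R O₁ i M k) : Van R O₂ i M 0 := by
  intro p μ hμ y hy
  rw [hW, add_sub_right_comm] at hy
  obtain ⟨x, hx, hxy⟩ := h p (μ - χ) (by
    rw [Pi.sub_apply, Pi.sub_apply]
    linarith) y hy
  refine ⟨x, ?_, ?_⟩
  · rw [hW]
    exact hx
  · rw [he]
    exact hxy

theorem rels_tw (R : Dat A J) (O : Ops A J C X) (χ : A → ℤ) (h : Rels R O) :
    Rels R (O.tw χ) := by
  refine ⟨h.ZZ, ?_, ?_, ?_, h.eZ, h.serre0, h.serre1⟩
  · intro a b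
    show (O.h a + (χ a : ℚ) • (1 : Module.End ℚ X)) * (O.h b + (χ b : ℚ) • (1 : Module.End ℚ X))
      = (O.h b + (χ b : ℚ) • (1 : Module.End ℚ X)) * (O.h a + (χ a : ℚ) • (1 : Module.End ℚ X))
    simp only [add_mul, mul_add, smul_mul_assoc, mul_smul_comm, one_mul, mul_one]
    rw [h.hh a b, smul_add, smul_add, smul_smul, smul_smul, mul_comm (χ a : ℚ)]
    abel
  · intro a b c
    show (O.h a + (χ a : ℚ) • (1 : Module.End ℚ X)) * O.Z b c
      = O.Z b c * (O.h a + (χ a : ℚ) • (1 : Module.End ℚ X)) + (if a = b then O.Z b c else 0)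
    simp only [add_mul, mul_add, smul_mul_assoc, mul_smul_comm, one_mul, mul_one]
    rw [h.hZ a b c]
    abel
  · intro a j
    show (O.h a + (χ a : ℚ) • (1 : Module.End ℚ X)) * O.e j
      = O.e j * (O.h a + (χ a : ℚ) • (1 : Module.End ℚ X)) + (R.al j a : ℚ) • O.e j
    simp only [add_mul, mul_add, smul_mul_assoc, mul_smul_comm, one_mul, mul_one]
    rw [h.he a j]
    abel

theorem dm_tw (O : Ops A J C X) (M : Submodule ℚ X) (χ μ : A → ℤ) :
    (O.tw χ).dm M μ = O.dm M (μ - χ) := by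
  unfold Ops.dm
  rw [tw_W]

theorem hasSum_tw (O : Ops A J C X) (M : Submodule ℚ X) (χ : A → ℤ) (t : A → ℝ) {S : ℝ}
    (h : HasSum (fun μ : A → ℤ => (O.dm M μ : ℝ) * w μ t) S) :
    HasSum (fun μ : A → ℤ => ((O.tw χ).dm M μ : ℝ) * w μ t) (w χ t * S) := by
  have h5 := h.mul_left (w χ t)
  have h6 := (Equiv.subRight χ).hasSum_iff.mpr h5
  refine h6.congr_fun ?_ |> fun h => h
  intro μ
  simp only [Function.comp, Equiv.subRight_apply]
  rw [dm_tw, mul_left_comm, ← w_add, add_sub_cancel]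

theorem t_TWI : S_TWI := by
  intro A J C X _ _ _ _ _ _ _ R O M χ hG
  refine ⟨?_, ?_, ?_⟩
  · refine ⟨rels_tw R O χ hG.rels, hG.Zst, hG.est, ?_, ?_, ?_, ?_, ?_⟩
    · simp only [tw_W]
      refine hG.span.trans (le_of_eq ?_)
      exact ((Equiv.subRight χ).iSup_comp (g := fun μ => M ⊓ O.W μ)).symm
    · intro μ
      rw [tw_W]
      exact hG.fin _
    · obtain ⟨c, hc⟩ := hG.bdd
      refine ⟨c + ∑ a, |χ a|, fun μ hμ a => ?_⟩
      rw [tw_W] at hμ
      have h1 := hc _ hμ a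
      rw [Pi.sub_apply] at h1
      have h2 : |χ a| ≤ ∑ a, |χ a| :=
        Finset.single_le_sum (f := fun a => |χ a|) (fun b _ => abs_nonneg (χ b))
          (Finset.mem_univ a)
      have h3 := neg_abs_le (χ a)
      linarith
    · obtain ⟨d, hd⟩ := hG.gen
      refine ⟨d + ∑ a, χ a, fun μ hμ => ?_⟩
      rw [tw_W]
      refine (hd (μ - χ) ?_).trans ?_
      · simp only [Pi.sub_apply, Finset.sum_sub_distrib]
        linarith
      · refine iSup_mono fun p => ?_
        rw [tw_W, sub_right_comm]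
        exact le_rfl
    · intro t ht
      exact (hasSum_tw O M χ t (hG.summ t ht).hasSum).summable
  · intro t
    by_cases hs : Summable (fun μ : A → ℤ => (O.dm M μ : ℝ) * w μ t)
    · exact (hasSum_tw O M χ t hs.hasSum).tsum_eq
    · have hs2 : ¬ Summable (fun μ : A → ℤ => ((O.tw χ).dm M μ : ℝ) * w μ t) := by
        intro h
        apply hs
        have h5 := h.mul_left (w χ t)⁻¹
        have h6 := (Equiv.addRight χ).summable_iff.mpr h5
        refine h6.congr fun μ => ?_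
        simp only [Function.comp, Equiv.coe_addRight]
        rw [dm_tw, add_sub_cancel_right, w_add]
        have := (w_pos χ t).ne'
        field_simp
      show (∑' μ : A → ℤ, ((O.tw χ).dm M μ : ℝ) * w μ t)
        = w χ t * (∑' μ : A → ℤ, (O.dm M μ : ℝ) * w μ t)
      rw [tsum_eq_zero_of_not_summable hs, tsum_eq_zero_of_not_summable hs2, mul_zero]
  · intro i k hχ
    exact ⟨van_transfer R O (O.tw χ) i M χ k rfl (tw_W O χ) hχ,
      van_transfer R (tens R O) (tens R (O.tw χ)) i (kerM O M) χ k rfl (tens_tw_W R O χ) hχ⟩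

end

end Pool.Agent.Q151.SK
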